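import Pool.Agent.V8H9.LC.Core2
import Pool.Agent.TH42.LA.E

/-!
# Almost all integer polynomials: assembly
-/

set_option autoImplicit false

namespace Pool.Agent.V8H9.LC

open Finset Filter
open Pool.Agent.TH42.LA (XX XX_card log_pow_le)
open Pool.Agent.Results.MP_c307ca_nt.AlmostAllToHeight (ev card_box mem_box KK KK_nonneg
  ev_sub lead_small LR card_LR ev_eq_aeval polZ polZ_coeff)

theorem mem_XX (T Q : ℕ) (p : ℤ) (q : ℕ) (_hQ : 1 ≤ Q) (h1 : Q ≤ q) (h2 : q < 2 * Q)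
    (h3 : |(p : ℝ) / q| ≤ T + 1) : (p : ℝ) / q ∈ XX T Q := by
  unfold XX
  rw [Finset.mem_filter, Finset.mem_image]
  refine ⟨⟨(q, p), ?_, rfl⟩, h3⟩
  rw [mem_product, mem_Ico, mem_Icc]
  refine ⟨⟨h1, h2⟩, ?_⟩
  have hq : (0 : ℝ) < q := by
    have : 0 < q := by omega
    exact_mod_cast this
  rw [abs_div, Nat.abs_cast, div_le_iff₀ hq] at h3
  have h4 : |(p : ℝ)| ≤ (((T + 1) * (2 * Q) : ℕ) : ℝ) := by
    have h5 : (q : ℝ) ≤ 2 * Q := by exact_mod_cast h2.le
    have h6 : (0 : ℝ) ≤ T + 1 := by positivity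
    refine h3.trans ?_
    push_cast
    exact mul_le_mul_of_nonneg_left h5 h6
  have h5 : |p| ≤ (((T + 1) * (2 * Q) : ℕ) : ℤ) := by exact_mod_cast h4
  exact abs_le.mp h5

theorem approx_count (n T : ℕ) (hn : 1 ≤ n) (hT : 2 ≤ T) (hnT : n ≤ T) (κ : ℝ)
    (hκ : κ < ((n : ℝ) + 1) / 2) (ψ : ℕ → ℝ) (hψ0 : ∀ q, 0 ≤ ψ q) (hψa : Antitone ψ)
    (hψs : Summable ψ) (η : ℝ) (hη : 0 < η) :
    ∃ c : ℝ, 0 < c ∧ ∀ᶠ H : ℕ in atTop, ∀ BB : Finset (Fin (n + 1) → ℤ),
      (∀ a ∈ BB, (∀ i, |a i| ≤ (H : ℤ)) ∧ a (Fin.last n) ≠ 0 ∧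
        ∃ ξ : ℝ, ev a ξ = 0 ∧ ∃ (p : ℤ) (q : ℕ), 1 ≤ q ∧ (q : ℝ) ≤ (H : ℝ) ^ κ ∧
          |ξ - (p : ℝ) / q| ≤ c * (ψ q / q)) →
      (BB.card : ℝ) ≤ (H : ℝ) ^ (n + 1) * (2 * 3 ^ n / (T - 1) + η) := by
  classical
  have hn1 : (1 : ℝ) ≤ n := by exact_mod_cast hn
  have hal := al_pos hn
  -- the exponents
  set κ1 : ℝ := max κ (1 / 2) with hκ1
  have hκ10 : 0 < κ1 := lt_max_of_lt_right (by norm_num)
  have hκ12 : κ1 < ((n : ℝ) + 1) / 2 := max_lt hκ (by linarith)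
  set σ : ℝ := ((n : ℝ) + 1) / 2 - κ1 with hσ
  have hσ0 : 0 < σ := by linarith
  set τ : ℝ := σ / κ1 with hτ
  have hτ0 : 0 < τ := by positivity
  have hκτ : κ1 * (2 + τ) = ((n : ℝ) + 1) - σ := by
    have h1 : κ1 * τ = σ := by
      rw [hτ]
      field_simp
    rw [mul_add, h1]
    linarith
  -- the majorant
  set r : ℝ := (2 : ℝ) ^ (-τ) with hr
  have hr0 : 0 < r := by positivity
  have hr1 : r < 1 := Real.rpow_lt_one_of_one_lt_of_neg (by norm_num) (by linarith)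
  set φ : ℕ → ℝ := fun j => (2 : ℝ) ^ j * ψ (2 ^ j) + r ^ j with hφ
  have hφs : Summable φ := by
    apply Summable.add
    · exact (summable_condensed_iff_of_nonneg hψ0 (fun _ _ _ h => hψa h)).mpr hψs
    · exact summable_geometric_of_lt_one hr0.le hr1
  have hφpos : ∀ j, 0 < φ j := fun j => by
    have h1 := hψ0 (2 ^ j)
    simp only [hφ]
    positivity
  have hφr : ∀ j, r ^ j ≤ φ j := fun j => by
    have h1 := hψ0 (2 ^ j)
    simp only [hφ]
    have : 0 ≤ (2 : ℝ) ^ j * ψ (2 ^ j) := by positivity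
    linarith
  set S : ℝ := ∑' j, φ j with hS
  have hφS : ∀ j, φ j ≤ S := fun j => hφs.le_tsum j fun i _ => (hφpos i).le
  have hS0 : 0 < S := (hφpos 0).trans_le (hφS 0)
  -- the constants
  obtain ⟨C, hC, hcore⟩ := core n hn ((T : ℝ) + 1) (by
    have : (n : ℝ) ≤ T := by exact_mod_cast hnT
    linarith)
  set KC : ℝ := KK n T + 1 with hKC
  have hKC0 : 0 < KC := by
    have := KK_nonneg n T
    linarith
  have hT0 : (0 : ℝ) ≤ T := Nat.cast_nonneg T
  set c : ℝ := min (1 / S) (η / (2 * (C * (4 * T + 5) * KC * S))) with hc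
  have hc0 : 0 < c := lt_min (by positivity) (by positivity)
  have hcS : c * S ≤ 1 := by
    have h1 : c ≤ 1 / S := min_le_left _ _
    rwa [le_div_iff₀ hS0] at h1
  have hcη : C * (4 * T + 5) * KC * S * c ≤ η / 2 := by
    have h1 : c ≤ η / (2 * (C * (4 * T + 5) * KC * S)) := min_le_right _ _
    rw [le_div_iff₀ (by positivity)] at h1
    linarith
  refine ⟨c, hc0, ?_⟩
  set C' : ℝ := 2 / η * (C * (1 + κ1 / Real.log 2) * (1 / (KC * c)) ^ al n) with hC'
  have hlog2 : 0 < Real.log 2 := Real.log_pos (by norm_num)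
  have hC'0 : 0 < C' := by positivity
  filter_upwards [log_pow_le 1 (σ * al n) C' (by positivity) hC'0, eventually_ge_atTop 3]
    with H hHlog hH3
  intro BB hB
  have hH1 : 1 ≤ H := by omega
  have hH0 : (0 : ℝ) < H := by exact_mod_cast hH1
  have hH1R : (1 : ℝ) ≤ H := by exact_mod_cast hH1
  have hH3R : (3 : ℝ) ≤ H := by exact_mod_cast hH3
  have hlogH : 1 ≤ Real.log H := by
    rw [Real.le_log_iff_exp_le hH0]
    have := Real.exp_one_lt_d9
    linarith
  rw [Real.rpow_one] at hHlog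
  set P : ℝ := (H : ℝ) ^ κ1 with hP
  have hP1 : 1 ≤ P := Real.one_le_rpow hH1R hκ10.le
  have hκP : (H : ℝ) ^ κ ≤ P := Real.rpow_le_rpow_of_exponent_le hH1R (le_max_left _ _)
  set e : ℕ → ℝ := fun j => KC * H * (c * (φ j / (2 ^ j) ^ 2)) with he
  have he0 : ∀ j, 0 < e j := fun j => by
    have := hφpos j
    simp only [he]
    positivity
  set Sj : ℕ → Finset (Fin (n + 1) → ℤ) := fun j => BB.filter
    (fun a : Fin (n + 1) → ℤ => ∃ θ ∈ XX T (2 ^ j), |∑ i, (a i : ℝ) * θ ^ (i : ℕ)| ≤ e j) with hSj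
  have hmemS : ∀ (j : ℕ) (a : Fin (n + 1) → ℤ), a ∈ Sj j ↔ a ∈ BB ∧
      ∃ θ ∈ XX T (2 ^ j), |∑ i, (a i : ℝ) * θ ^ (i : ℕ)| ≤ e j := by
    intro j a
    simp only [hSj, Finset.mem_filter]
  set E2 : ℝ := (1 / (KC * c * (H : ℝ) ^ σ)) ^ al n with hE2
  have hSjcard : ∀ j : ℕ, ((2 : ℝ) ^ j) ≤ P → ((Sj j).card : ℝ) ≤
      C * (4 * T + 5) * KC * c * (H : ℝ) ^ (n + 1) * φ j + C * ((H : ℝ) ^ (n + 1) * E2) := by
    intro j hj
    have h2j : (0 : ℝ) < 2 ^ j := by positivity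
    have h1 := hcore H (e j) hH1R (he0 j) (XX T (2 ^ j)) (by
      intro θ hθ
      unfold XX at hθ
      rw [Finset.mem_filter] at hθ
      exact hθ.2) (Sj j) (by
      intro F hF
      rw [hmemS] at hF
      refine ⟨fun i => ?_, hF.2⟩
      have h2 := (hB F hF.1).1 i
      exact_mod_cast h2)
    refine h1.trans ?_
    have h2 := XX_card T (2 ^ j) Nat.one_le_two_pow
    push_cast at h2
    have h3 : ((XX T (2 ^ j)).card : ℝ) * ((H : ℝ) ^ n * e j) ≤
        (4 * T + 5) * KC * c * (H : ℝ) ^ (n + 1) * φ j := by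
      have h4 := he0 j
      calc ((XX T (2 ^ j)).card : ℝ) * ((H : ℝ) ^ n * e j)
          ≤ ((4 * T + 5) * (2 ^ j) ^ 2) * ((H : ℝ) ^ n * e j) :=
            mul_le_mul_of_nonneg_right h2 (by positivity)
        _ = _ := by
            simp only [he]
            rw [pow_succ (H : ℝ) n]
            field_simp
    have h4 : KC * c * (H : ℝ) ^ σ ≤ e j * (H : ℝ) ^ n := by
      have h5 : (((2 : ℝ) ^ j) ^ (2 + τ)) ≤ (H : ℝ) ^ (((n : ℝ) + 1) - σ) := by
        rw [← hκτ, Real.rpow_mul hH0.le, ← hP]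
        exact Real.rpow_le_rpow h2j.le hj (by linarith)
      have h6 : ((2 : ℝ) ^ j) ^ (2 + τ) = ((2 : ℝ) ^ j) ^ 2 * (1 / r ^ j) := by
        rw [Real.rpow_add h2j]
        congr 1
        · norm_cast
        · rw [hr, ← Real.rpow_natCast 2 j, ← Real.rpow_mul (by norm_num),
            ← Real.rpow_natCast ((2 : ℝ) ^ (-τ)) j, ← Real.rpow_mul (by norm_num), one_div,
            ← Real.rpow_neg (by norm_num)]
          congr 1
          ring
      have h7 : (H : ℝ) ^ (((n : ℝ) + 1) - σ) = (H : ℝ) ^ (n + 1) / (H : ℝ) ^ σ := by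
        rw [Real.rpow_sub hH0]
        congr 1
        norm_cast
      rw [h6, h7, mul_one_div] at h5
      have hHσ : 0 < (H : ℝ) ^ σ := by positivity
      have hrj : 0 < r ^ j := by positivity
      rw [div_le_div_iff₀ hrj hHσ] at h5
      have h8 := hφr j
      simp only [he]
      have h9 : KC * H * (c * (φ j / (2 ^ j) ^ 2)) * (H : ℝ) ^ n =
          KC * c * ((H : ℝ) ^ (n + 1) * φ j / (2 ^ j) ^ 2) := by
        rw [pow_succ (H : ℝ) n]
        ring
      rw [h9]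
      apply mul_le_mul_of_nonneg_left _ (by positivity)
      rw [le_div_iff₀ (by positivity)]
      calc (H : ℝ) ^ σ * (2 ^ j) ^ 2 = (2 ^ j) ^ 2 * (H : ℝ) ^ σ := by ring
        _ ≤ (H : ℝ) ^ (n + 1) * r ^ j := h5
        _ ≤ (H : ℝ) ^ (n + 1) * φ j := mul_le_mul_of_nonneg_left h8 (by positivity)
    have h5 : (1 / (e j * (H : ℝ) ^ n)) ^ al n ≤ E2 := by
      have h6 := he0 j
      apply Real.rpow_le_rpow (by positivity) _ hal.le
      exact one_div_le_one_div_of_le (by positivity) h4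
    calc C * (((XX T (2 ^ j)).card : ℝ) * ((H : ℝ) ^ n * e j) +
          (H : ℝ) ^ (n + 1) * (1 / (e j * (H : ℝ) ^ n)) ^ al n)
        ≤ C * ((4 * T + 5) * KC * c * (H : ℝ) ^ (n + 1) * φ j + (H : ℝ) ^ (n + 1) * E2) := by
          apply mul_le_mul_of_nonneg_left _ hC.le
          exact add_le_add h3 (mul_le_mul_of_nonneg_left h5 (by positivity))
      _ = _ := by ring
  set J : ℕ := Nat.log 2 ⌊P⌋₊ + 1 with hJ
  have hfl : ⌊P⌋₊ ≠ 0 := by
    have h1 : 1 ≤ ⌊P⌋₊ := Nat.le_floor (by exact_mod_cast hP1)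
    omega
  have hjP : ∀ j ∈ range J, ((2 : ℝ) ^ j) ≤ P := by
    intro j hj
    rw [mem_range, hJ, Nat.lt_succ_iff] at hj
    have h1 : 2 ^ j ≤ ⌊P⌋₊ := (Nat.pow_le_pow_right (by norm_num) hj).trans
      (Nat.pow_log_le_self 2 hfl)
    have h2 : ((2 : ℝ) ^ j) ≤ (⌊P⌋₊ : ℝ) := by exact_mod_cast h1
    exact h2.trans (Nat.floor_le (by linarith))
  have hJb : (J : ℝ) ≤ (1 + κ1 / Real.log 2) * Real.log H := by
    have h1 : ((2 : ℝ) ^ (Nat.log 2 ⌊P⌋₊)) ≤ P := by
      have h2 : 2 ^ (Nat.log 2 ⌊P⌋₊) ≤ ⌊P⌋₊ := Nat.pow_log_le_self 2 hfl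
      have h3 : ((2 : ℝ) ^ (Nat.log 2 ⌊P⌋₊)) ≤ (⌊P⌋₊ : ℝ) := by exact_mod_cast h2
      exact h3.trans (Nat.floor_le (by linarith))
    have h2 : (Nat.log 2 ⌊P⌋₊ : ℝ) * Real.log 2 ≤ κ1 * Real.log H := by
      rw [← Real.log_pow, ← Real.log_rpow hH0]
      exact Real.log_le_log (by positivity) h1
    have h3 : (Nat.log 2 ⌊P⌋₊ : ℝ) ≤ κ1 / Real.log 2 * Real.log H := by
      rw [div_mul_eq_mul_div, le_div_iff₀ hlog2]
      exact h2
    rw [hJ]
    push_cast
    linarith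
  have hsub : BB ⊆ LR n T H ∪ (range J).biUnion Sj := by
    intro a ha
    obtain ⟨ha1, ha2, ξ, hξ0, p, q, hq1, hqκ, hle⟩ := hB a ha
    rw [Finset.mem_union]
    by_cases hξ : (T : ℝ) < |ξ|
    · left
      unfold LR
      rw [Finset.mem_filter]
      exact ⟨mem_box ha1, ha2, lead_small n T H hT a ha1 ξ hξ0 hξ⟩
    · right
      rw [not_lt] at hξ
      set j : ℕ := Nat.log 2 q with hj
      have hj1 : 2 ^ j ≤ q := Nat.pow_log_le_self 2 (by omega)
      have hj2 : q < 2 * 2 ^ j := by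
        have h1 : q < 2 ^ (j + 1) := Nat.lt_pow_succ_log_self (by norm_num) _
        calc q < 2 ^ (j + 1) := h1
          _ = 2 * 2 ^ j := by ring
      have hqP : (q : ℝ) ≤ P := hqκ.trans hκP
      have hjJ : j ∈ range J := by
        rw [mem_range, hJ, hj]
        exact Nat.lt_succ_of_le (Nat.log_mono_right (Nat.le_floor hqP))
      rw [mem_biUnion]
      refine ⟨j, hjJ, ?_⟩
      have hq0 : (0 : ℝ) < q := by
        have : 0 < q := by omega
        exact_mod_cast this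
      have h2j : (0 : ℝ) < 2 ^ j := by positivity
      have h2jq : ((2 : ℝ) ^ j) ≤ q := by exact_mod_cast hj1
      have hψφ : ψ q / q ≤ φ j / (2 ^ j) ^ 2 := by
        have h1 : ψ q ≤ ψ (2 ^ j) := hψa hj1
        have h2 : ψ (2 ^ j) / 2 ^ j = (2 ^ j * ψ (2 ^ j)) / (2 ^ j) ^ 2 := by
          field_simp
        calc ψ q / q ≤ ψ (2 ^ j) / 2 ^ j := div_le_div₀ (hψ0 _) h1 h2j h2jq
          _ = (2 ^ j * ψ (2 ^ j)) / (2 ^ j) ^ 2 := h2
          _ ≤ φ j / (2 ^ j) ^ 2 := by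
              apply div_le_div_of_nonneg_right _ (by positivity)
              simp only [hφ]
              have : 0 < r ^ j := by positivity
              linarith
      have h1 : |ξ - (p : ℝ) / q| ≤ c * (φ j / (2 ^ j) ^ 2) :=
        hle.trans (mul_le_mul_of_nonneg_left hψφ hc0.le)
      have h2 : c * (φ j / (2 ^ j) ^ 2) ≤ 1 := by
        have h3 : φ j / (2 ^ j) ^ 2 ≤ S := by
          refine (div_le_self (hφpos j).le ?_).trans (hφS j)
          exact one_le_pow₀ (one_le_pow₀ (by norm_num))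
        exact (mul_le_mul_of_nonneg_left h3 hc0.le).trans hcS
      have hy : |(p : ℝ) / q| ≤ T + 1 := by
        have h6 : (p : ℝ) / q = ξ - (ξ - (p : ℝ) / q) := by ring
        rw [h6]
        refine (abs_sub _ _).trans ?_
        linarith
      rw [hmemS]
      refine ⟨ha, (p : ℝ) / q, mem_XX T (2 ^ j) p q Nat.one_le_two_pow hj1 hj2 hy, ?_⟩
      have h7 := ev_sub n T H a ha1 ((p : ℝ) / q) ξ hy (by linarith)
      rw [hξ0, sub_zero] at h7
      have h8 : KK n T * H * |(p : ℝ) / q - ξ| ≤ KC * H * |(p : ℝ) / q - ξ| := by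
        apply mul_le_mul_of_nonneg_right _ (abs_nonneg _)
        apply mul_le_mul_of_nonneg_right _ hH0.le
        rw [hKC]
        linarith
      have h9 : |(p : ℝ) / q - ξ| ≤ c * (φ j / (2 ^ j) ^ 2) := by
        rw [abs_sub_comm]
        exact h1
      simp only [he]
      exact (h7.trans h8).trans (mul_le_mul_of_nonneg_left h9 (by positivity))
  have hcard : (BB.card : ℝ) ≤ ((LR n T H).card : ℝ) + ∑ j ∈ range J, ((Sj j).card : ℝ) := by
    have h1 := (Finset.card_le_card hsub).trans (Finset.card_union_le _ _)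
    have h2 : ((range J).biUnion Sj).card ≤ ∑ j ∈ range J, (Sj j).card := Finset.card_biUnion_le
    exact_mod_cast h1.trans (Nat.add_le_add_left h2 _)
  have hLR := card_LR n T H hT hH1
  have hsum : ∑ j ∈ range J, ((Sj j).card : ℝ) ≤ (H : ℝ) ^ (n + 1) * η := by
    have hHp : 0 < (H : ℝ) ^ (n + 1) := by positivity
    have h1 : ∑ j ∈ range J, ((Sj j).card : ℝ) ≤
        C * (4 * T + 5) * KC * c * (H : ℝ) ^ (n + 1) * ∑ j ∈ range J, φ j +
          J * (C * ((H : ℝ) ^ (n + 1) * E2)) := by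
      refine (Finset.sum_le_sum fun j hj => hSjcard j (hjP j hj)).trans (le_of_eq ?_)
      rw [Finset.sum_add_distrib, ← Finset.mul_sum, Finset.sum_const, card_range, nsmul_eq_mul]
    have h2 : ∑ j ∈ range J, φ j ≤ S := hφs.sum_le_tsum _ fun i _ => (hφpos i).le
    have h3 : C * (4 * T + 5) * KC * c * (H : ℝ) ^ (n + 1) * ∑ j ∈ range J, φ j ≤
        (H : ℝ) ^ (n + 1) * (η / 2) := by
      calc C * (4 * T + 5) * KC * c * (H : ℝ) ^ (n + 1) * ∑ j ∈ range J, φ j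
          ≤ C * (4 * T + 5) * KC * c * (H : ℝ) ^ (n + 1) * S :=
            mul_le_mul_of_nonneg_left h2 (by positivity)
        _ = (H : ℝ) ^ (n + 1) * (C * (4 * T + 5) * KC * S * c) := by ring
        _ ≤ _ := mul_le_mul_of_nonneg_left hcη hHp.le
    have h4 : (J : ℝ) * (C * ((H : ℝ) ^ (n + 1) * E2)) ≤ (H : ℝ) ^ (n + 1) * (η / 2) := by
      have h5 : E2 = (1 / (KC * c)) ^ al n / (H : ℝ) ^ (σ * al n) := by
        rw [hE2, Real.rpow_mul hH0.le, ← Real.div_rpow (by positivity) (by positivity), div_div]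
      have hHs : 0 < (H : ℝ) ^ (σ * al n) := by positivity
      have h6 : (J : ℝ) * C * E2 ≤ η / 2 := by
        rw [h5, ← mul_div_assoc, div_le_iff₀ hHs]
        calc (J : ℝ) * C * (1 / (KC * c)) ^ al n
            ≤ ((1 + κ1 / Real.log 2) * Real.log H) * C * (1 / (KC * c)) ^ al n := by
              apply mul_le_mul_of_nonneg_right _ (by positivity)
              exact mul_le_mul_of_nonneg_right hJb hC.le
          _ = (η / 2) * (C' * Real.log H) := by
              rw [hC']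
              field_simp
          _ ≤ (η / 2) * (H : ℝ) ^ (σ * al n) := mul_le_mul_of_nonneg_left hHlog (by positivity)
      calc (J : ℝ) * (C * ((H : ℝ) ^ (n + 1) * E2)) = (H : ℝ) ^ (n + 1) * (J * C * E2) := by ring
        _ ≤ _ := mul_le_mul_of_nonneg_left h6 hHp.le
    linarith
  calc (BB.card : ℝ) ≤ ((LR n T H).card : ℝ) + ∑ j ∈ range J, ((Sj j).card : ℝ) := hcard
    _ ≤ (H : ℝ) ^ (n + 1) * (2 * 3 ^ n / (T - 1)) + (H : ℝ) ^ (n + 1) * η :=
        add_le_add hLR hsum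
    _ = _ := by ring

end Pool.Agent.V8H9.LC
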