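import Pool.Agent.V8H9.LC.Near

/-!
# The number of minimal vectors of a given size
-/

set_option autoImplicit false

namespace Pool.Agent.V8H9.LC

open Finset MeasureTheory Metric

/-- the number of the minimal vectors with first coordinate between `T` and `2 T` -/
theorem card_minl (n : ℕ) (hn : 1 ≤ n) (R : ℝ) (hR : (n : ℝ) ≤ R) (c : ℝ) (hc : 0 < c)
    (hc1 : c < 1) : ∃ C : ℝ, 0 < C ∧ ∀ H T : ℝ, 1 ≤ H → 1 ≤ T →
      ∀ (th : (Fin (n + 1) → ℤ) → ℝ) (A : Finset (Fin (n + 1) → ℤ)),
        (∀ w ∈ A, |th w| ≤ R ∧ Minl H c (th w) w ∧ T ≤ (w 0 : ℝ) ∧ (w 0 : ℝ) < 2 * T) →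
        (A.card : ℝ) ≤ C * (H * T) * (T / H ^ n) ^ al n := by
  classical
  have hn1 : (1 : ℝ) ≤ n := by exact_mod_cast hn
  have hR1 : 1 ≤ R := by linarith
  obtain ⟨C, hC, hmeas⟩ := near_measure n hn (R + 1) (by linarith) (2 * c) (by linarith)
  -- the radius is `c / (D H T)`
  set D : ℝ := 2 * (n * (R + 1) ^ n) with hD
  have hRp : (1 : ℝ) ≤ (R + 1) ^ n := one_le_pow₀ (by linarith)
  have hD1 : 1 ≤ D := by
    rw [hD]
    nlinarith
  refine ⟨5 ^ (n + 1) * C * (D / c), by positivity, ?_⟩
  intro H T hH hT th A hA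
  have hH0 : 0 < H := by linarith
  have hT0 : 0 < T := by linarith
  set ρ : ℝ := c / (D * (H * T)) with hρ
  have hρ0 : 0 < ρ := by positivity
  have hρ1 : ρ ≤ 1 := by
    rw [hρ, div_le_one (by positivity)]
    have h1 : 1 ≤ H * T := one_le_mul_of_one_le_of_one_le hH hT
    have h2 : 1 ≤ D * (H * T) := one_le_mul_of_one_le_of_one_le hD1 h1
    linarith
  have hρ2 : H * (2 * T) * (n * (R + 1) ^ n) * ρ ≤ c := by
    rw [hρ]
    have h1 : H * (2 * T) * (n * (R + 1) ^ n) = D * (H * T) := by
      rw [hD]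
      ring
    rw [h1, mul_div_cancel₀ _ (by positivity)]
  set U : Set ℝ := ⋃ w ∈ A, ball (th w) (ρ / 2) with hU
  have hUmeas : MeasurableSet U := by
    rw [hU]
    exact Finset.measurableSet_biUnion A fun w _ => measurableSet_ball
  have hUE : U ⊆ EE n (R + 1) (2 * c) H T := by
    intro x hx
    rw [hU] at hx
    simp only [Set.mem_iUnion] at hx
    obtain ⟨w, hw, hxw⟩ := hx
    obtain ⟨h1, h2, h3, h4⟩ := hA w hw
    rw [mem_ball, Real.dist_eq] at hxw
    have hxR : |x| < R + 1 := by
      have h5 : |x| ≤ |x - th w| + |th w| := by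
        have := abs_add_le (x - th w) (th w)
        rwa [sub_add_cancel] at this
      linarith
    refine ⟨by rw [mem_ball, Real.dist_eq, sub_zero]; exact hxR, w, h3, h4.le, ?_⟩
    exact near_move hH (by linarith : (1 : ℝ) ≤ R + 1) (by linarith) hxR.le (by
      rw [abs_sub_comm]
      linarith) hρ2 h2.1 h4.le h2.2.1
  have hpt : ∀ x : ℝ, ∑ w ∈ A, (ball (th w) (ρ / 2)).indicator (fun _ => (1 : ENNReal)) x ≤
      U.indicator (fun _ => (5 ^ (n + 1) : ENNReal)) x := by
    intro x
    by_cases hx : x ∈ U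
    · rw [Set.indicator_of_mem hx]
      have h1 : ∑ w ∈ A, (ball (th w) (ρ / 2)).indicator (fun _ => (1 : ENNReal)) x =
          ((A.filter (fun w => x ∈ ball (th w) (ρ / 2))).card : ENNReal) := by
        rw [Finset.card_filter, Nat.cast_sum]
        apply Finset.sum_congr rfl
        intro w _
        by_cases hxw : x ∈ ball (th w) (ρ / 2)
        · rw [Set.indicator_of_mem hxw, if_pos hxw, Nat.cast_one]
        · rw [Set.indicator_of_notMem hxw, if_neg hxw, Nat.cast_zero]
      rw [h1]
      have h2 := overlap (n := n) (R := R + 1) (T := T) (ρ := ρ) hH hc (by linarith) hρ2 th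
        (A.filter (fun w => x ∈ ball (th w) (ρ / 2))) (by
          intro w hw
          rw [Finset.mem_filter] at hw
          obtain ⟨h3, h4, h5, h6⟩ := hA w hw.1
          exact ⟨by linarith, h4, h5, h6⟩) (by
          intro w hw w' hw'
          rw [Finset.mem_filter, mem_ball, Real.dist_eq] at hw hw'
          have h3 : th w - th w' = (x - th w') - (x - th w) := by ring
          rw [h3]
          refine (abs_sub _ _).trans ?_
          linarith [hw.2, hw'.2])
      exact_mod_cast h2
    · rw [Set.indicator_of_notMem hx]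
      apply le_of_eq
      apply Finset.sum_eq_zero
      intro w hw
      apply Set.indicator_of_notMem
      intro hxw
      apply hx
      rw [hU]
      simp only [Set.mem_iUnion]
      exact ⟨w, hw, hxw⟩
  have hint := lintegral_mono (μ := volume) hpt
  rw [lintegral_finsetSum] at hint
  · have h1 : ∀ w ∈ A, ∫⁻ x, (ball (th w) (ρ / 2)).indicator (fun _ => (1 : ENNReal)) x =
        ENNReal.ofReal ρ := by
      intro w _
      rw [lintegral_indicator measurableSet_ball, setLIntegral_one, Real.volume_ball]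
      congr 1
      ring
    rw [Finset.sum_congr rfl h1, Finset.sum_const, lintegral_indicator hUmeas,
      setLIntegral_const] at hint
    have h2 : volume U ≤ ENNReal.ofReal (C * (T / H ^ n) ^ al n) :=
      (measure_mono hUE).trans (hmeas H T hH hT)
    have h3 : A.card • ENNReal.ofReal ρ ≤ 5 ^ (n + 1) * ENNReal.ofReal (C * (T / H ^ n) ^ al n) :=
      hint.trans (mul_le_mul_right h2 _)
    have h4 : ENNReal.ofReal ((A.card : ℝ) * ρ) ≤
        ENNReal.ofReal (5 ^ (n + 1) * (C * (T / H ^ n) ^ al n)) := by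
      rw [ENNReal.ofReal_mul (by positivity), ENNReal.ofReal_mul (by positivity),
        ENNReal.ofReal_natCast, ENNReal.ofReal_pow (by norm_num)]
      rw [nsmul_eq_mul] at h3
      simpa using h3
    have h5 := (ENNReal.ofReal_le_ofReal_iff (by positivity)).mp h4
    have h6 : (A.card : ℝ) ≤ 5 ^ (n + 1) * (C * (T / H ^ n) ^ al n) / ρ := by
      rw [le_div_iff₀ hρ0]
      exact h5
    refine h6.trans (le_of_eq ?_)
    rw [hρ]
    field_simp
  · intro w _
    exact measurable_const.indicator measurableSet_ball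

end Pool.Agent.V8H9.LC
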