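import Pool.Agent.V8H9.LC.Slab
import Pool.Agent.V8H9.LC.CardW

/-!
# Integer polynomials of bounded height with a small value at one of finitely many points
-/

set_option autoImplicit false

namespace Pool.Agent.V8H9.LC

open Finset

variable {n : ℕ}

/-- the trivial bound -/
theorem box_count (H : ℝ) (hH : 1 ≤ H) (S : Finset (Fin (n + 1) → ℤ))
    (hS : ∀ F ∈ S, ∀ i, |(F i : ℝ)| ≤ H) : (S.card : ℝ) ≤ 3 ^ (n + 1) * H ^ (n + 1) := by
  classical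
  have hsub : S ⊆ Fintype.piFinset (fun _ : Fin (n + 1) => Icc (-⌊H⌋) ⌊H⌋) := by
    intro F hF
    rw [Fintype.mem_piFinset]
    intro i
    have h1 := hS F hF i
    rw [abs_le] at h1
    rw [mem_Icc]
    constructor
    · have h2 : -(F i) ≤ ⌊H⌋ := by
        rw [Int.le_floor, Int.cast_neg]
        linarith [h1.1]
      linarith
    · rw [Int.le_floor]
      exact h1.2
  have h1 := Finset.card_le_card hsub
  rw [Fintype.card_piFinset_const, Int.card_Icc] at h1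
  have h2 : (0 : ℤ) ≤ ⌊H⌋ := Int.floor_nonneg.mpr (by linarith)
  have h3 : ((⌊H⌋ + 1 - -⌊H⌋).toNat : ℤ) = 2 * ⌊H⌋ + 1 := by
    rw [Int.toNat_of_nonneg (by linarith)]
    ring
  have h4 : (((⌊H⌋ + 1 - -⌊H⌋).toNat : ℕ) : ℝ) = 2 * (⌊H⌋ : ℝ) + 1 := by exact_mod_cast h3
  have h5 : (S.card : ℝ) ≤ ((((⌊H⌋ + 1 - -⌊H⌋).toNat) ^ (n + 1) : ℕ) : ℝ) := by
    exact_mod_cast h1
  rw [Nat.cast_pow, h4] at h5
  refine h5.trans ?_
  rw [← mul_pow]
  have h6 : (0 : ℝ) ≤ (⌊H⌋ : ℝ) := by exact_mod_cast h2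
  have h7 := Int.floor_le H
  exact pow_le_pow_left₀ (by linarith) (by linarith) _

/-- the maximal entry -/
theorem exists_pivot (v : Fin (n + 1) → ℝ) : ∃ m, ∀ i, |v i| ≤ |v m| := by
  obtain ⟨m, _, hm⟩ := Finset.exists_max_image (univ : Finset (Fin (n + 1))) (fun i => |v i|)
    ⟨0, mem_univ _⟩
  exact ⟨m, fun i => hm i (mem_univ i)⟩

/-- the point `θ` has a close vector with first coordinate at most `M` -/
def Bad (n : ℕ) (H c M θ : ℝ) : Prop :=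
  ∃ u : Fin (n + 1) → ℤ, u ≠ 0 ∧ Near H c θ u ∧ |(u 0 : ℝ)| ≤ M

/-- the number of polynomials with a small value at a good point -/
theorem good_count (n : ℕ) (R : ℝ) (hR : 1 ≤ R) (c : ℝ) (hc : 0 < c) :
    ∃ C : ℝ, 0 < C ∧ ∀ H η θ : ℝ, 1 ≤ H → 0 < η → η ≤ H → |θ| ≤ R →
      ¬ Bad n H c (c / η) θ → ∀ S : Finset (Fin (n + 1) → ℤ),
        (∀ F ∈ S, (∀ i, |(F i : ℝ)| ≤ H) ∧ |∑ i, (F i : ℝ) * θ ^ (i : ℕ)| ≤ η) →
        (S.card : ℝ) ≤ C * (H ^ n * η) := by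
  have hRn : (1 : ℝ) ≤ R ^ n := one_le_pow₀ hR
  set cL : ℝ := c / (4 * (1 + R ^ n)) with hcL
  have hcL0 : 0 < cL := by positivity
  have hcLc : cL * (1 + R ^ n) ≤ c := by
    have h1 : cL * (1 + R ^ n) = c / 4 := by
      rw [hcL]
      field_simp
    rw [h1]
    linarith
  have hcL2 : 2 * cL ≤ c := by nlinarith
  obtain ⟨C, hC, hslab⟩ := slab_count n cL hcL0
  refine ⟨C, hC, ?_⟩
  intro H η θ hH hη hηH hθ hgood S hS
  have hH0 : 0 < H := by linarith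
  obtain ⟨m, hm⟩ := exists_pivot (fun i : Fin (n + 1) => θ ^ (i : ℕ))
  have hm0 := hm 0
  simp only [Fin.val_zero, pow_zero, abs_one] at hm0
  have hvm : θ ^ (m : ℕ) ≠ 0 := by
    intro h0
    rw [h0, abs_zero] at hm0
    linarith
  have hpow : ∀ i : Fin (n + 1), |θ ^ (i : ℕ)| ≤ R ^ n := by
    intro i
    rw [abs_pow]
    exact (pow_le_pow_left₀ (abs_nonneg _) hθ _).trans
      (pow_le_pow_right₀ hR (Nat.lt_succ_iff.mp i.2))
  have h := hslab H η hH0 hη (fun i => θ ^ (i : ℕ)) m hvm (by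
    intro u hu h1 h2
    apply hgood
    set t : ℝ := (u m : ℝ) / θ ^ (m : ℕ) with ht
    have h20 := h2 0
    simp only [Fin.val_zero, pow_zero, mul_one] at h20
    refine ⟨u, hu, ?_, ?_⟩
    · intro i
      have h3 : (u i : ℝ) - (u 0 : ℝ) * θ ^ (i : ℕ) =
          ((u i : ℝ) - t * θ ^ (i : ℕ)) - ((u 0 : ℝ) - t) * θ ^ (i : ℕ) := by ring
      rw [h3]
      calc H * |((u i : ℝ) - t * θ ^ (i : ℕ)) - ((u 0 : ℝ) - t) * θ ^ (i : ℕ)|
          ≤ H * (|(u i : ℝ) - t * θ ^ (i : ℕ)| + |((u 0 : ℝ) - t) * θ ^ (i : ℕ)|) :=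
            mul_le_mul_of_nonneg_left (abs_sub _ _) hH0.le
        _ = H * |(u i : ℝ) - t * θ ^ (i : ℕ)| + H * |(u 0 : ℝ) - t| * |θ ^ (i : ℕ)| := by
            rw [abs_mul]
            ring
        _ ≤ cL + cL * R ^ n :=
            add_le_add (h2 i) (mul_le_mul h20 (hpow i) (abs_nonneg _) hcL0.le)
        _ = cL * (1 + R ^ n) := by ring
        _ ≤ c := hcLc
    · have h3 : |(u 0 : ℝ)| ≤ |t| + |(u 0 : ℝ) - t| := by
        have := abs_add_le t ((u 0 : ℝ) - t)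
        rwa [add_sub_cancel] at this
      have h4 : |t| ≤ cL / η := by
        rw [le_div_iff₀ hη]
        exact h1
      have h5 : |(u 0 : ℝ) - t| ≤ cL / η := by
        have h6 : |(u 0 : ℝ) - t| ≤ cL / H := by
          rw [le_div_iff₀ hH0]
          linarith
        exact h6.trans (div_le_div_of_nonneg_left hcL0.le hη hηH)
      calc |(u 0 : ℝ)| ≤ cL / η + cL / η := by linarith
        _ = (2 * cL) / η := by ring
        _ ≤ c / η := div_le_div_of_nonneg_right hcL2 hη.le) S hS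
  refine h.trans ?_
  refine mul_le_mul_of_nonneg_left ?_ hC.le
  exact div_le_self (by positivity) hm0

/-- the number of polynomials orthogonal to a minimal vector -/
theorem orth_count (n : ℕ) (R : ℝ) (hR : 1 ≤ R) (c : ℝ) (hc : 0 < c) (hc1 : c < 1) :
    ∃ C : ℝ, 0 < C ∧ ∀ H θ : ℝ, 1 ≤ H → |θ| ≤ R → ∀ w : Fin (n + 1) → ℤ, Minl H c θ w →
      ∀ S : Finset (Fin (n + 1) → ℤ),
        (∀ F ∈ S, (∀ i, |(F i : ℝ)| ≤ H) ∧ ∑ i, (F i : ℝ) * (w i : ℝ) = 0) →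
        (S.card : ℝ) ≤ C * (H ^ n / (w 0 : ℝ)) := by
  have hRn : (1 : ℝ) ≤ R ^ n := one_le_pow₀ hR
  set cL : ℝ := c / (4 * (1 + R ^ n)) with hcL
  have hcL0 : 0 < cL := by positivity
  have hcL4 : cL * (1 + R ^ n) = c / 4 := by
    rw [hcL]
    field_simp
  have hcL8 : cL ≤ 1 / 8 := by nlinarith
  obtain ⟨C, hC, hslab⟩ := slab_count n cL hcL0
  refine ⟨C, hC, ?_⟩
  intro H θ hH hθ w hw S hS
  have hH0 : 0 < H := by linarith
  obtain ⟨hw0, hwn, hwmin⟩ := hw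
  have hw0R : (0 : ℝ) < w 0 := by exact_mod_cast hw0
  have hw1R : (1 : ℝ) ≤ w 0 := by exact_mod_cast hw0
  obtain ⟨m, hm⟩ := exists_pivot (fun i : Fin (n + 1) => (w i : ℝ))
  have hm0 : (w 0 : ℝ) ≤ |(w m : ℝ)| := (le_abs_self _).trans (hm 0)
  have hvm : (w m : ℝ) ≠ 0 := by
    intro h0
    rw [h0, abs_zero] at hm0
    linarith
  have hpow : ∀ i : Fin (n + 1), |θ ^ (i : ℕ)| ≤ R ^ n := by
    intro i
    rw [abs_pow]
    exact (pow_le_pow_left₀ (abs_nonneg _) hθ _).trans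
      (pow_le_pow_right₀ hR (Nat.lt_succ_iff.mp i.2))
  have h := hslab H (1 / 2) hH0 (by norm_num) (fun i => (w i : ℝ)) m hvm (by
    intro u hu h1 h2
    set t : ℝ := (u m : ℝ) / (w m : ℝ) with ht
    have ht2 : |t| ≤ 2 * cL := by linarith
    have h20 : |(u 0 : ℝ) - t * (w 0 : ℝ)| ≤ cL := by
      have h3 := h2 0
      have h4 : 0 ≤ |(u 0 : ℝ) - t * (w 0 : ℝ)| := abs_nonneg _
      exact (le_mul_of_one_le_left h4 hH).trans h3
    have hnear : Near H c θ u := by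
      intro i
      have h3 : (u i : ℝ) - (u 0 : ℝ) * θ ^ (i : ℕ) =
          t * ((w i : ℝ) - (w 0 : ℝ) * θ ^ (i : ℕ)) + (((u i : ℝ) - t * (w i : ℝ)) -
            ((u 0 : ℝ) - t * (w 0 : ℝ)) * θ ^ (i : ℕ)) := by ring
      rw [h3]
      calc H * |t * ((w i : ℝ) - (w 0 : ℝ) * θ ^ (i : ℕ)) + (((u i : ℝ) - t * (w i : ℝ)) -
            ((u 0 : ℝ) - t * (w 0 : ℝ)) * θ ^ (i : ℕ))|
          ≤ H * (|t * ((w i : ℝ) - (w 0 : ℝ) * θ ^ (i : ℕ))| + (|(u i : ℝ) - t * (w i : ℝ)| +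
            |((u 0 : ℝ) - t * (w 0 : ℝ)) * θ ^ (i : ℕ)|)) := by
            refine mul_le_mul_of_nonneg_left ?_ hH0.le
            exact (abs_add_le _ _).trans (add_le_add le_rfl (abs_sub _ _))
        _ = |t| * (H * |(w i : ℝ) - (w 0 : ℝ) * θ ^ (i : ℕ)|) + H * |(u i : ℝ) - t * (w i : ℝ)| +
            (H * |(u 0 : ℝ) - t * (w 0 : ℝ)|) * |θ ^ (i : ℕ)| := by
            rw [abs_mul, abs_mul]
            ring
        _ ≤ (2 * cL) * c + cL + cL * R ^ n := by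
            refine add_le_add (add_le_add ?_ (h2 i)) ?_
            · exact mul_le_mul ht2 (hwn i) (by positivity) (by positivity)
            · exact mul_le_mul (h2 0) (hpow i) (abs_nonneg _) hcL0.le
        _ ≤ c := by nlinarith
    have h3 := hwmin u hu hnear
    have h4 : (w 0 : ℝ) ≤ |(u 0 : ℝ)| := by exact_mod_cast h3
    have h5 : |(u 0 : ℝ)| ≤ |t| * (w 0 : ℝ) + cL := by
      have h6 : (u 0 : ℝ) = t * (w 0 : ℝ) + ((u 0 : ℝ) - t * (w 0 : ℝ)) := by ring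
      calc |(u 0 : ℝ)| = |t * (w 0 : ℝ) + ((u 0 : ℝ) - t * (w 0 : ℝ))| := by rw [← h6]
        _ ≤ |t * (w 0 : ℝ)| + |(u 0 : ℝ) - t * (w 0 : ℝ)| := abs_add_le _ _
        _ ≤ |t| * (w 0 : ℝ) + cL := by
            rw [abs_mul, abs_of_pos hw0R]
            linarith
    nlinarith) S (by
      intro F hF
      obtain ⟨h1, h2⟩ := hS F hF
      refine ⟨h1, ?_⟩
      rw [h2, abs_zero]
      norm_num)
  refine h.trans ?_
  refine mul_le_mul_of_nonneg_left ?_ hC.le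
  have hHn : 0 ≤ H ^ n := by positivity
  calc H ^ n * (1 / 2) / |(w m : ℝ)| ≤ H ^ n / |(w m : ℝ)| :=
        div_le_div_of_nonneg_right (by linarith) (abs_nonneg _)
    _ ≤ H ^ n / (w 0 : ℝ) := div_le_div_of_nonneg_left hHn hw0R hm0

/-- at a bad point the polynomials are orthogonal to the close vectors -/
theorem orth_of_near {H η c θ : ℝ} (hH : 1 ≤ H) (hη : 0 < η)
    (hcn : ((n : ℝ) + 2) * c < 1) {w F : Fin (n + 1) → ℤ} (hw0 : 0 < w 0) (hw : Near H c θ w)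
    (hwM : (w 0 : ℝ) ≤ c / η) (hF : ∀ i, |(F i : ℝ)| ≤ H)
    (hF2 : |∑ i, (F i : ℝ) * θ ^ (i : ℕ)| ≤ η) : ∑ i, (F i : ℝ) * (w i : ℝ) = 0 := by
  have hH0 : 0 < H := by linarith
  have hw0R : (0 : ℝ) < w 0 := by exact_mod_cast hw0
  have h1 : ∑ i, (F i : ℝ) * (w i : ℝ) = (w 0 : ℝ) * ∑ i, (F i : ℝ) * θ ^ (i : ℕ) +
      ∑ i, (F i : ℝ) * ((w i : ℝ) - (w 0 : ℝ) * θ ^ (i : ℕ)) := by
    rw [Finset.mul_sum, ← Finset.sum_add_distrib]
    exact Finset.sum_congr rfl fun i _ => by ring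
  have h2 : |∑ i, (F i : ℝ) * ((w i : ℝ) - (w 0 : ℝ) * θ ^ (i : ℕ))| ≤ ((n : ℝ) + 1) * c := by
    refine (Finset.abs_sum_le_sum_abs _ _).trans ?_
    calc ∑ i, |(F i : ℝ) * ((w i : ℝ) - (w 0 : ℝ) * θ ^ (i : ℕ))|
        ≤ ∑ _i : Fin (n + 1), c := by
          apply Finset.sum_le_sum
          intro i _
          rw [abs_mul]
          exact (mul_le_mul_of_nonneg_right (hF i) (abs_nonneg _)).trans (hw i)
      _ = ((n : ℝ) + 1) * c := by
          rw [Finset.sum_const, card_univ, Fintype.card_fin, nsmul_eq_mul]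
          push_cast
          ring
  have h3 : |(w 0 : ℝ) * ∑ i, (F i : ℝ) * θ ^ (i : ℕ)| ≤ c := by
    rw [abs_mul, abs_of_pos hw0R]
    calc (w 0 : ℝ) * |∑ i, (F i : ℝ) * θ ^ (i : ℕ)| ≤ (c / η) * η :=
          mul_le_mul hwM hF2 (abs_nonneg _) (hw0R.le.trans hwM)
      _ = c := div_mul_cancel₀ _ hη.ne'
  have h4 : |∑ i, (F i : ℝ) * (w i : ℝ)| < 1 := by
    rw [h1]
    refine (abs_add_le _ _).trans_lt ?_
    linarith
  have h5 : ((∑ i, F i * w i : ℤ) : ℝ) = ∑ i, (F i : ℝ) * (w i : ℝ) := by push_cast; rfl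
  rw [← h5] at h4 ⊢
  have h6 : |∑ i, F i * w i| < 1 := by exact_mod_cast h4
  rw [Int.abs_lt_one_iff.mp h6, Int.cast_zero]

end Pool.Agent.V8H9.LC
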