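import Pool.Agent.V8H9.LC.Core

/-!
# The union over the bad points
-/

set_option autoImplicit false

namespace Pool.Agent.V8H9.LC

open Finset

/-- geometric sums -/
theorem geom_le (r : ℝ) (hr : 1 < r) (K : ℕ) :
    ∑ k ∈ range (K + 1), r ^ k ≤ r / (r - 1) * r ^ K := by
  have h := geom_sum_eq hr.ne' (K + 1)
  have h1 : 0 < r - 1 := by linarith
  rw [h, div_mul_eq_mul_div, div_le_div_iff_of_pos_right h1, pow_succ]
  linarith

/-- the sum of `H ^ n / w 0` over minimal vectors -/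
theorem sum_minl (n : ℕ) (hn : 1 ≤ n) (R : ℝ) (hR : (n : ℝ) ≤ R) (c : ℝ) (hc : 0 < c)
    (hc1 : c < 1) : ∃ C : ℝ, 0 < C ∧ ∀ H M : ℝ, 1 ≤ H → 0 < M →
      ∀ (th : (Fin (n + 1) → ℤ) → ℝ) (A : Finset (Fin (n + 1) → ℤ)),
        (∀ w ∈ A, |th w| ≤ R ∧ Minl H c (th w) w ∧ (w 0 : ℝ) ≤ M) →
        ∑ w ∈ A, H ^ n / (w 0 : ℝ) ≤ C * (H ^ (n + 1) * (M / H ^ n) ^ al n) := by
  classical
  obtain ⟨C, hC, hcard⟩ := card_minl n hn R hR c hc hc1
  have hal := al_pos hn
  set r : ℝ := (2 : ℝ) ^ al n with hr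
  have hr1 : 1 < r := Real.one_lt_rpow (by norm_num) hal
  have hr2 : 0 < r / (r - 1) := div_pos (by linarith) (by linarith)
  refine ⟨C * (r / (r - 1)), by positivity, ?_⟩
  intro H M hH hM th A hA
  have hH0 : 0 < H := by linarith
  have hHn : 0 < H ^ n := by positivity
  by_cases hM1 : M < 1
  · have hA0 : A = ∅ := by
      rw [Finset.eq_empty_iff_forall_notMem]
      intro w hw
      obtain ⟨_, h1, h2⟩ := hA w hw
      have h3 : (1 : ℝ) ≤ w 0 := by exact_mod_cast h1.1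
      linarith
    rw [hA0, Finset.sum_empty]
    positivity
  push Not at hM1
  have hfl : ⌊M⌋₊ ≠ 0 := by
    have h1 : 1 ≤ ⌊M⌋₊ := Nat.le_floor (by exact_mod_cast hM1)
    omega
  set K : ℕ := Nat.log 2 ⌊M⌋₊ with hK
  set g : (Fin (n + 1) → ℤ) → ℕ := fun w => Nat.log 2 (w 0).toNat with hg
  have hg1 : ∀ w ∈ A, (2 : ℝ) ^ (g w) ≤ (w 0 : ℝ) ∧ (w 0 : ℝ) < 2 * 2 ^ (g w) := by
    intro w hw
    obtain ⟨_, h1, _⟩ := hA w hw
    have h2 : (w 0).toNat ≠ 0 := by
      have := h1.1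
      omega
    have h3 : (((w 0).toNat : ℕ) : ℝ) = (w 0 : ℝ) := by
      have h4 : (((w 0).toNat : ℕ) : ℤ) = w 0 := Int.toNat_of_nonneg h1.1.le
      exact_mod_cast congrArg (fun z : ℤ => (z : ℝ)) h4
    have h5 : 2 ^ (g w) ≤ (w 0).toNat := Nat.pow_log_le_self 2 h2
    have h6 : (w 0).toNat < 2 ^ (g w + 1) := Nat.lt_pow_succ_log_self (by norm_num) _
    constructor
    · rw [← h3]
      exact_mod_cast h5
    · rw [← h3]
      have h7 : (((w 0).toNat : ℕ) : ℝ) < ((2 ^ (g w + 1) : ℕ) : ℝ) := by exact_mod_cast h6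
      rw [Nat.cast_pow, pow_succ] at h7
      push_cast at h7
      linarith
  have hmaps : ∀ w ∈ A, g w ∈ range (K + 1) := by
    intro w hw
    obtain ⟨_, h1, h2⟩ := hA w hw
    rw [mem_range, Nat.lt_succ_iff]
    apply Nat.log_mono_right
    apply Nat.le_floor
    have h4 : (((w 0).toNat : ℕ) : ℤ) = w 0 := Int.toNat_of_nonneg h1.1.le
    have h3 : (((w 0).toNat : ℕ) : ℝ) = (w 0 : ℝ) := by
      exact_mod_cast congrArg (fun z : ℤ => (z : ℝ)) h4
    rw [h3]
    exact h2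
  rw [← Finset.sum_fiberwise_of_maps_to hmaps]
  have hpow : ∀ k : ℕ, ((2 : ℝ) ^ k) ^ al n = r ^ k := by
    intro k
    rw [hr, ← Real.rpow_natCast, ← Real.rpow_mul (by norm_num), mul_comm, Real.rpow_mul
      (by norm_num), Real.rpow_natCast]
  calc ∑ k ∈ range (K + 1), ∑ w ∈ A.filter (fun w => g w = k), H ^ n / (w 0 : ℝ)
      ≤ ∑ k ∈ range (K + 1), C * (H ^ (n + 1) / (H ^ n) ^ al n) * r ^ k := by
        apply Finset.sum_le_sum
        intro k _
        have h2k : (0 : ℝ) < 2 ^ k := by positivity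
        have h1 : ∑ w ∈ A.filter (fun w => g w = k), H ^ n / (w 0 : ℝ) ≤
            ∑ w ∈ A.filter (fun w => g w = k), H ^ n / 2 ^ k := by
          apply Finset.sum_le_sum
          intro w hw
          rw [Finset.mem_filter] at hw
          have h2 := (hg1 w hw.1).1
          rw [hw.2] at h2
          exact div_le_div_of_nonneg_left hHn.le h2k h2
        rw [Finset.sum_const, nsmul_eq_mul] at h1
        have h2 := hcard H (2 ^ k) hH (one_le_pow₀ (by norm_num)) th
          (A.filter (fun w => g w = k)) (by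
            intro w hw
            rw [Finset.mem_filter] at hw
            obtain ⟨h3, h4, _⟩ := hA w hw.1
            have h5 := hg1 w hw.1
            rw [hw.2] at h5
            exact ⟨h3, h4, h5.1, h5.2⟩)
        calc _ ≤ _ := h1
          _ ≤ (C * (H * 2 ^ k) * (2 ^ k / H ^ n) ^ al n) * (H ^ n / 2 ^ k) :=
              mul_le_mul_of_nonneg_right h2 (by positivity)
          _ = _ := by
              rw [Real.div_rpow h2k.le hHn.le, hpow, pow_succ]
              field_simp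
    _ = C * (H ^ (n + 1) / (H ^ n) ^ al n) * ∑ k ∈ range (K + 1), r ^ k := by
        rw [Finset.mul_sum]
    _ ≤ C * (H ^ (n + 1) / (H ^ n) ^ al n) * (r / (r - 1) * M ^ al n) := by
        refine mul_le_mul_of_nonneg_left ?_ (by positivity)
        refine (geom_le r hr1 K).trans ?_
        refine mul_le_mul_of_nonneg_left ?_ hr2.le
        rw [← hpow]
        apply Real.rpow_le_rpow (by positivity) _ hal.le
        have h1 : 2 ^ K ≤ ⌊M⌋₊ := Nat.pow_log_le_self 2 hfl
        have h2 : ((2 : ℝ) ^ K) ≤ (⌊M⌋₊ : ℝ) := by exact_mod_cast h1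
        exact h2.trans (Nat.floor_le hM.le)
    _ = C * (r / (r - 1)) * (H ^ (n + 1) * (M / H ^ n) ^ al n) := by
        rw [Real.div_rpow hM.le hHn.le]
        ring

/-- **Integer polynomials with a small value at one of finitely many points.** -/
theorem core (n : ℕ) (hn : 1 ≤ n) (R : ℝ) (hR : (n : ℝ) ≤ R) :
    ∃ C : ℝ, 0 < C ∧ ∀ H η : ℝ, 1 ≤ H → 0 < η → ∀ X : Finset ℝ, (∀ θ ∈ X, |θ| ≤ R) →
      ∀ S : Finset (Fin (n + 1) → ℤ), (∀ F ∈ S, (∀ i, |(F i : ℝ)| ≤ H) ∧
        ∃ θ ∈ X, |∑ i, (F i : ℝ) * θ ^ (i : ℕ)| ≤ η) →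
      (S.card : ℝ) ≤ C * (X.card * (H ^ n * η) + H ^ (n + 1) * (1 / (η * H ^ n)) ^ al n) := by
  classical
  have hn1 : (1 : ℝ) ≤ n := by exact_mod_cast hn
  have hR1 : 1 ≤ R := by linarith
  have hal := al_pos hn
  set c : ℝ := 1 / ((n : ℝ) + 3) with hcdef
  have hc : 0 < c := by positivity
  have hc1 : c < 1 := by
    rw [hcdef, div_lt_one (by positivity)]
    linarith
  have hcn : ((n : ℝ) + 2) * c < 1 := by
    rw [hcdef, mul_one_div, div_lt_one (by positivity)]
    linarith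
  obtain ⟨C1, hC1, hgood⟩ := good_count n R hR1 c hc
  obtain ⟨C2, hC2, horth⟩ := orth_count n R hR1 c hc hc1
  obtain ⟨C3, hC3, hsum⟩ := sum_minl n hn R hR c hc hc1
  refine ⟨3 ^ (n + 1) + C1 + C2 * C3, by positivity, ?_⟩
  intro H η hH hη X hX S hS
  have hH0 : 0 < H := by linarith
  have hHn : 0 < H ^ n := by positivity
  have hHn1 : 0 < H ^ (n + 1) := by positivity
  have hr0 : 0 ≤ (1 / (η * H ^ n)) ^ al n := by positivity
  have hX0 : (0 : ℝ) ≤ X.card * (H ^ n * η) := by positivity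
  have hbox := box_count H hH S (fun F hF => (hS F hF).1)
  have h3p : (0 : ℝ) ≤ 3 ^ (n + 1) := by positivity
  have hC23 : 0 ≤ C2 * C3 := by positivity
  by_cases hsmall : η * H ^ n ≤ 1
  · have h1 : (1 : ℝ) ≤ (1 / (η * H ^ n)) ^ al n := by
      apply Real.one_le_rpow _ hal.le
      rw [le_div_iff₀ (by positivity)]
      linarith
    calc (S.card : ℝ) ≤ 3 ^ (n + 1) * H ^ (n + 1) := hbox
      _ = 3 ^ (n + 1) * (0 + H ^ (n + 1) * 1) := by ring
      _ ≤ 3 ^ (n + 1) * (X.card * (H ^ n * η) + H ^ (n + 1) * (1 / (η * H ^ n)) ^ al n) := by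
          gcongr
      _ ≤ _ := by
          apply mul_le_mul_of_nonneg_right
          · linarith
          · positivity
  push Not at hsmall
  by_cases hlarge : H < η
  · rcases S.eq_empty_or_nonempty with h0 | ⟨F, hF⟩
    · rw [h0, Finset.card_empty, Nat.cast_zero]
      positivity
    · obtain ⟨_, θ, hθ, _⟩ := hS F hF
      have h1 : (1 : ℝ) ≤ X.card := by
        have : 1 ≤ X.card := Finset.card_pos.mpr ⟨θ, hθ⟩
        exact_mod_cast this
      have h2 : H ^ (n + 1) ≤ X.card * (H ^ n * η) := by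
        calc H ^ (n + 1) = 1 * (H ^ n * H) := by ring
          _ ≤ X.card * (H ^ n * η) := by gcongr
      calc (S.card : ℝ) ≤ 3 ^ (n + 1) * H ^ (n + 1) := hbox
        _ ≤ 3 ^ (n + 1) * (X.card * (H ^ n * η) + H ^ (n + 1) * (1 / (η * H ^ n)) ^ al n) := by
            apply mul_le_mul_of_nonneg_left _ h3p
            have : 0 ≤ H ^ (n + 1) * (1 / (η * H ^ n)) ^ al n := by positivity
            linarith
        _ ≤ _ := by
            apply mul_le_mul_of_nonneg_right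
            · linarith
            · positivity
  push Not at hlarge
  -- the main case
  set B : ℝ → Prop := fun θ => Bad n H c (c / η) θ with hB
  have hchoice : ∀ θ : ℝ, ∃ w : Fin (n + 1) → ℤ, B θ → Minl H c θ w ∧ (w 0 : ℝ) ≤ c / η := by
    intro θ
    by_cases hθ : B θ
    · obtain ⟨w, h1, h2⟩ := exists_minl hH hc1 hθ
      exact ⟨w, fun _ => ⟨h1, h2⟩⟩
    · exact ⟨0, fun h => absurd h hθ⟩
  choose ww hww using hchoice
  set W : Finset (Fin (n + 1) → ℤ) := (X.filter B).image ww with hW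
  have hback : ∀ w : Fin (n + 1) → ℤ, ∃ θ : ℝ, w ∈ W → θ ∈ X ∧ B θ ∧ ww θ = w := by
    intro w
    by_cases hw : w ∈ W
    · rw [hW, Finset.mem_image] at hw
      obtain ⟨θ, h1, h2⟩ := hw
      rw [Finset.mem_filter] at h1
      exact ⟨θ, fun _ => ⟨h1.1, h1.2, h2⟩⟩
    · exact ⟨0, fun h => absurd h hw⟩
  choose th hth using hback
  have hsub : S ⊆ (X.filter (fun θ => ¬ B θ)).biUnion
      (fun θ : ℝ => S.filter (fun F : Fin (n + 1) → ℤ => |∑ i, (F i : ℝ) * θ ^ (i : ℕ)| ≤ η)) ∪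
      W.biUnion (fun w => S.filter (fun F : Fin (n + 1) → ℤ => ∑ i, (F i : ℝ) * (w i : ℝ) = 0)) := by
    intro F hF
    obtain ⟨h1, θ, hθ, h2⟩ := hS F hF
    rw [Finset.mem_union, Finset.mem_biUnion, Finset.mem_biUnion]
    by_cases hBθ : B θ
    · right
      obtain ⟨h3, h4⟩ := hww θ hBθ
      refine ⟨ww θ, ?_, ?_⟩
      · rw [hW, Finset.mem_image]
        exact ⟨θ, Finset.mem_filter.mpr ⟨hθ, hBθ⟩, rfl⟩
      · rw [Finset.mem_filter]
        exact ⟨hF, orth_of_near hH hη hcn h3.1 h3.2.1 h4 h1 h2⟩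
    · left
      exact ⟨θ, Finset.mem_filter.mpr ⟨hθ, hBθ⟩, Finset.mem_filter.mpr ⟨hF, h2⟩⟩
  have hcard : (S.card : ℝ) ≤ ∑ θ ∈ X.filter (fun θ => ¬ B θ),
      ((S.filter (fun F : Fin (n + 1) → ℤ => |∑ i, (F i : ℝ) * θ ^ (i : ℕ)| ≤ η)).card : ℝ) +
      ∑ w ∈ W, ((S.filter (fun F : Fin (n + 1) → ℤ => ∑ i, (F i : ℝ) * (w i : ℝ) = 0)).card : ℝ) := by
    have h1 := (Finset.card_le_card hsub).trans (Finset.card_union_le _ _)
    have h2 := h1.trans (add_le_add Finset.card_biUnion_le Finset.card_biUnion_le)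
    exact_mod_cast h2
  have hfirst : ∑ θ ∈ X.filter (fun θ => ¬ B θ),
      ((S.filter (fun F : Fin (n + 1) → ℤ => |∑ i, (F i : ℝ) * θ ^ (i : ℕ)| ≤ η)).card : ℝ) ≤
      C1 * (X.card * (H ^ n * η)) := by
    calc _ ≤ ∑ _θ ∈ X.filter (fun θ => ¬ B θ), C1 * (H ^ n * η) := by
          apply Finset.sum_le_sum
          intro θ hθ
          rw [Finset.mem_filter] at hθ
          apply hgood H η θ hH hη hlarge (hX θ hθ.1) hθ.2
          intro F hF
          rw [Finset.mem_filter] at hF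
          exact ⟨(hS F hF.1).1, hF.2⟩
      _ = ((X.filter (fun θ => ¬ B θ)).card : ℝ) * (C1 * (H ^ n * η)) := by
          rw [Finset.sum_const, nsmul_eq_mul]
      _ ≤ (X.card : ℝ) * (C1 * (H ^ n * η)) := by
          apply mul_le_mul_of_nonneg_right _ (by positivity)
          exact_mod_cast Finset.card_filter_le _ _
      _ = _ := by ring
  have hsecond : ∑ w ∈ W, ((S.filter (fun F : Fin (n + 1) → ℤ => ∑ i, (F i : ℝ) * (w i : ℝ) = 0)).card : ℝ) ≤
      (C2 * C3) * (H ^ (n + 1) * (1 / (η * H ^ n)) ^ al n) := by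
    have h1 : ∀ w ∈ W, |th w| ≤ R ∧ Minl H c (th w) w ∧ (w 0 : ℝ) ≤ c / η := by
      intro w hw
      obtain ⟨h2, h3, h4⟩ := hth w hw
      obtain ⟨h5, h6⟩ := hww (th w) h3
      rw [h4] at h5 h6
      exact ⟨hX _ h2, h5, h6⟩
    calc _ ≤ ∑ w ∈ W, C2 * (H ^ n / (w 0 : ℝ)) := by
          apply Finset.sum_le_sum
          intro w hw
          obtain ⟨h2, h3, _⟩ := h1 w hw
          apply horth H (th w) hH h2 w h3
          intro F hF
          rw [Finset.mem_filter] at hF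
          exact ⟨(hS F hF.1).1, hF.2⟩
      _ = C2 * ∑ w ∈ W, H ^ n / (w 0 : ℝ) := by rw [Finset.mul_sum]
      _ ≤ C2 * (C3 * (H ^ (n + 1) * (c / η / H ^ n) ^ al n)) := by
          apply mul_le_mul_of_nonneg_left _ hC2.le
          exact hsum H (c / η) hH (by positivity) th W h1
      _ ≤ C2 * (C3 * (H ^ (n + 1) * (1 / (η * H ^ n)) ^ al n)) := by
          have h7 : c / η / H ^ n ≤ 1 / (η * H ^ n) := by
            rw [div_div]
            exact div_le_div_of_nonneg_right hc1.le (by positivity)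
          have h8 : (c / η / H ^ n) ^ al n ≤ (1 / (η * H ^ n)) ^ al n :=
            Real.rpow_le_rpow (by positivity) h7 hal.le
          have h9 : 0 ≤ C2 * C3 * H ^ (n + 1) := by positivity
          calc C2 * (C3 * (H ^ (n + 1) * (c / η / H ^ n) ^ al n))
              = C2 * C3 * H ^ (n + 1) * (c / η / H ^ n) ^ al n := by ring
            _ ≤ C2 * C3 * H ^ (n + 1) * (1 / (η * H ^ n)) ^ al n :=
                mul_le_mul_of_nonneg_left h8 h9
            _ = _ := by ring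
      _ = _ := by ring
  calc (S.card : ℝ) ≤ C1 * (X.card * (H ^ n * η)) +
        (C2 * C3) * (H ^ (n + 1) * (1 / (η * H ^ n)) ^ al n) := by linarith
    _ ≤ _ := by
        have h1 : 0 ≤ H ^ (n + 1) * (1 / (η * H ^ n)) ^ al n := by positivity
        have e1 : (3 ^ (n + 1) + C1 + C2 * C3) *
            (X.card * (H ^ n * η) + H ^ (n + 1) * (1 / (η * H ^ n)) ^ al n) =
            C1 * (X.card * (H ^ n * η)) + (C2 * C3) * (H ^ (n + 1) * (1 / (η * H ^ n)) ^ al n) +
            ((3 ^ (n + 1) + C2 * C3) * (X.card * (H ^ n * η)) +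
              (3 ^ (n + 1) + C1) * (H ^ (n + 1) * (1 / (η * H ^ n)) ^ al n)) := by ring
        rw [e1]
        have h2 : 0 ≤ (3 ^ (n + 1) + C2 * C3) * (X.card * (H ^ n * η)) := by positivity
        have h3 : 0 ≤ (3 ^ (n + 1) + C1) * (H ^ (n + 1) * (1 / (η * H ^ n)) ^ al n) := by
          positivity
        linarith

end Pool.Agent.V8H9.LC
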