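import Pool.Agent.H393R2.Geom3

/-!
# Counting integer points with Minkowski's second theorem

The number of integer points in a symmetric convex body is at most a constant times its volume if
the dual lattice has no short vector.
-/

set_option autoImplicit false

namespace Pool.Agent.V8H9.LC

open Finset Pool.Agent.H393R2.Geom

/-- the constant of the dual bound -/
noncomputable def C1 (N : ℕ) : ℝ := (N.factorial : ℝ) * (2 * KK N) ^ N

theorem C1_pos {N : ℕ} (hN : 0 < N) : 0 < C1 N := by
  unfold C1
  have := one_le_KK hN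
  positivity

/-- the number of integer points with small values of the forms, if the dual forms have no small
values -/
theorem count_general {N : ℕ} (hN : 0 < N) (L Ls : Matrix (Fin N) (Fin N) ℝ) (hL : |L.det| = 1)
    (hLs : Ls.transpose * L = 1) (r B : ℝ) (hr : 0 < r) (hB : 0 < B)
    (hdual : ∀ u : Fin N → ℤ, u ≠ 0 → ∃ l, B < |app Ls u l|)
    (S : Finset (Fin N → ℤ)) (hS : ∀ F ∈ S, ‖app L F‖ ≤ r) :
    (S.card : ℝ) ≤ (C1 N * (2 * r + 1 / B)) ^ N * N.factorial := by
  classical
  have hC1 := C1_pos hN
  have hL0 : L.det ≠ 0 := by intro h; rw [h] at hL; simp at hL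
  obtain ⟨G, hG, hmono, hmin⟩ := minima L Ls hLs
  have hup := prod_upper L G hN hL hG hmono hmin
  have hlow := prod_lower L G hL hG
  have hpos := lam_pos L G hL0 hG
  set lam : Fin N → ℝ := fun j => ‖app L (G j)‖ with hlam
  set last : Fin N := ⟨N - 1, by omega⟩ with hlast
  have hle_last : ∀ k, lam k ≤ lam last := fun k => hmono k last (by
    rw [Fin.le_def]; have := k.2; simp only [hlast]; omega)
  -- the last minimum is bounded
  have hu0 : dual G last ≠ 0 := by
    intro h0
    have h1 := (dual_indep L Ls G hL0 hLs hG).ne_zero last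
    apply h1
    rw [h0, map_zero]
  obtain ⟨l, hl⟩ := hdual _ hu0
  have h1 := dual_bound L Ls G hL hLs hG hup last l
  have hlast1 : lam last ≤ C1 N / B := by
    have h2 : B < C1 N / lam last := hl.trans_le h1
    rw [lt_div_iff₀ (hpos last)] at h2
    rw [le_div_iff₀ hB]
    linarith
  -- the coordinates
  set b : Fin N → ℝ := fun k => C1 N * r / lam k with hb
  have hb0 : ∀ k, 0 ≤ b k := fun k => by
    have := hpos k
    simp only [hb]
    positivity
  have hy : ∀ F ∈ S, ∀ k, |((G.updateRow k F).det : ℝ)| ≤ b k := by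
    intro F hF k
    have h2 := abs_det_le (MM L (G.updateRow k F)) (fun i => if i = k then r else lam i) (by
      intro i l
      rw [MM_apply]
      by_cases hik : i = k
      · subst hik
        rw [Matrix.updateRow_self, if_pos rfl]
        exact (norm_le_pi_norm (app L F) l).trans (hS F hF)
      · rw [Matrix.updateRow_ne hik, if_neg hik]
        exact norm_le_pi_norm (app L (G i)) l)
    rw [det_MM, abs_mul, hL, mul_one] at h2
    have h3 : (∏ i, (if i = k then r else lam i)) * lam k = (∏ i, lam i) * r := by
      rw [← Finset.mul_prod_erase univ _ (mem_univ k), ← Finset.mul_prod_erase univ lam (mem_univ k)]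
      rw [if_pos rfl]
      have h4 : ∏ x ∈ univ.erase k, (if x = k then r else lam x) = ∏ x ∈ univ.erase k, lam x := by
        apply Finset.prod_congr rfl
        intro x hx
        rw [if_neg (Finset.ne_of_mem_erase hx)]
      rw [h4]
      ring
    simp only [hb]
    rw [le_div_iff₀ (hpos k)]
    calc |((G.updateRow k F).det : ℝ)| * lam k
        ≤ ((N.factorial : ℝ) * ∏ i, (if i = k then r else lam i)) * lam k :=
          mul_le_mul_of_nonneg_right h2 (hpos k).le
      _ = (N.factorial : ℝ) * ((∏ i, lam i) * r) := by rw [← h3]; ring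
      _ ≤ (N.factorial : ℝ) * ((2 * KK N) ^ N * r) := by gcongr
      _ = C1 N * r := by unfold C1; ring
  -- the injection
  have hinj : Set.InjOn (fun F : Fin N → ℤ => fun k => (G.updateRow k F).det)
      (S : Set (Fin N → ℤ)) := by
    intro F _ F' _ hFF
    have h2 := cramer_rows G F
    have h3 := cramer_rows G F'
    have h4 : ∀ k, (G.updateRow k F).det = (G.updateRow k F').det := fun k => congrFun hFF k
    simp only [h4] at h2
    rw [← h3] at h2
    exact smul_right_injective _ hG h2
  have hmaps : ∀ F ∈ S, (fun k => (G.updateRow k F).det) ∈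
      Fintype.piFinset (fun k => Icc (-⌊b k⌋) ⌊b k⌋) := by
    intro F hF
    rw [Fintype.mem_piFinset]
    intro k
    have h2 := hy F hF k
    rw [abs_le] at h2
    rw [mem_Icc]
    constructor
    · have h3 : -((G.updateRow k F).det) ≤ ⌊b k⌋ := by
        rw [Int.le_floor, Int.cast_neg]
        linarith [h2.1]
      linarith
    · rw [Int.le_floor]
      exact h2.2
  have hcard := Finset.card_le_card_of_injOn _ hmaps hinj
  have hcard2 : (S.card : ℝ) ≤ ∏ k, (2 * b k + 1) := by
    have h2 : (S.card : ℝ) ≤ ((Fintype.piFinset (fun k => Icc (-⌊b k⌋) ⌊b k⌋)).card : ℝ) := by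
      exact_mod_cast hcard
    refine h2.trans ?_
    rw [Fintype.card_piFinset]
    push_cast
    apply Finset.prod_le_prod
    · intro k _
      positivity
    · intro k _
      rw [Int.card_Icc]
      have h3 : (0 : ℤ) ≤ ⌊b k⌋ := Int.floor_nonneg.mpr (hb0 k)
      have h4 : ((⌊b k⌋ + 1 - -⌊b k⌋).toNat : ℤ) = 2 * ⌊b k⌋ + 1 := by
        rw [Int.toNat_of_nonneg (by linarith)]
        ring
      have h5 : (((⌊b k⌋ + 1 - -⌊b k⌋).toNat : ℕ) : ℝ) = 2 * (⌊b k⌋ : ℝ) + 1 := by
        exact_mod_cast h4
      rw [h5]
      have h6 := Int.floor_le (b k)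
      linarith
  have hfac : ∀ k, 2 * b k + 1 ≤ C1 N * (2 * r + 1 / B) / lam k := by
    intro k
    rw [le_div_iff₀ (hpos k)]
    have h2 : b k * lam k = C1 N * r := by
      simp only [hb]
      exact div_mul_cancel₀ _ (hpos k).ne'
    have h3 : lam k ≤ C1 N / B := (hle_last k).trans hlast1
    calc (2 * b k + 1) * lam k = 2 * (b k * lam k) + lam k := by ring
      _ ≤ 2 * (C1 N * r) + C1 N / B := by rw [h2]; linarith
      _ = C1 N * (2 * r + 1 / B) := by ring
  have hprod : 0 < ∏ k, lam k := Finset.prod_pos fun k _ => hpos k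
  calc (S.card : ℝ) ≤ ∏ k, (2 * b k + 1) := hcard2
    _ ≤ ∏ k, (C1 N * (2 * r + 1 / B) / lam k) := by
        apply Finset.prod_le_prod
        · intro k _
          have := hb0 k
          linarith
        · intro k _
          exact hfac k
    _ = (C1 N * (2 * r + 1 / B)) ^ N / ∏ k, lam k := by
        rw [Finset.prod_div_distrib, Finset.prod_const, card_univ, Fintype.card_fin]
    _ ≤ (C1 N * (2 * r + 1 / B)) ^ N * N.factorial := by
        rw [div_le_iff₀ hprod, mul_assoc]
        have h2 : 0 ≤ (C1 N * (2 * r + 1 / B)) ^ N := by positivity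
        nlinarith

end Pool.Agent.V8H9.LC
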