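import Pool.Agent.V8H9.LC.Asm

/-!
# Almost all algebraic numbers of given degree: the final counts
-/

set_option autoImplicit false

namespace Pool.Agent.V8H9.LC

open Finset Filter
open Pool.Agent.Results.MP_c307ca_nt.AlmostAllToHeight (ev mem_box ev_eq_aeval polZ polZ_coeff
  no_rat_root)

/-- `ξ` is a root of an irreducible integer polynomial of degree `d` and height at most `H` -/
def AlgN (d H : ℕ) (ξ : ℝ) : Prop :=
  ∃ P : Polynomial ℤ, P.natDegree = d ∧ (∀ i, |P.coeff i| ≤ (H : ℤ)) ∧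
    Irreducible (P.map (Int.castRingHom ℚ)) ∧ Polynomial.aeval ξ P = 0

/-- for one height a small constant leaves no exceptional number -/
theorem one_height (d : ℕ) (hd : 2 ≤ d) (κ : ℝ) (ψ : ℕ → ℝ) (hψ0 : ∀ q, 0 ≤ ψ q)
    (hψa : Antitone ψ) (H : ℕ) :
    ∃ c : ℝ, 0 < c ∧ ∀ ξ : ℝ, AlgN d H ξ →
      ∀ (p : ℤ) (q : ℕ), 1 ≤ q → (q : ℝ) ≤ (H : ℝ) ^ κ →
        c * (ψ q / q) < |ξ - (p : ℝ) / q| := by
  classical
  set U : Finset ℝ := (Pool.Agent.Results.MP_c307ca_nt.AlmostAllToHeight.box (d + 1)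
    (H : ℤ)).biUnion (fun a => ((polZ a).map (Int.castRingHom ℝ)).roots.toFinset) with hU
  set N : ℕ := ⌊(H : ℝ) ^ κ⌋₊ with hN
  set g : ℝ × ℕ → ℝ := fun z => |(z.2 : ℝ) * z.1 - round ((z.2 : ℝ) * z.1)| / z.2 with hg
  set F : Finset ℝ := insert 1 (((U ×ˢ Icc 1 N).image g).filter (fun x => 0 < x)) with hF
  have hFne : F.Nonempty := Finset.insert_nonempty _ _
  set c0 : ℝ := F.min' hFne with hc0
  have hc0pos : 0 < c0 := by
    have h1 := F.min'_mem hFne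
    rw [← hc0, hF, mem_insert, mem_filter] at h1
    rcases h1 with h1 | h1
    · rw [h1]
      exact one_pos
    · exact h1.2
  have hψ00 := hψ0 0
  refine ⟨c0 / (2 * (ψ 0 + 1)), by positivity, ?_⟩
  rintro ξ ⟨P, hPd, hPH, hPirr, hξ⟩ p q hq1 hqκ
  have hq0 : (0 : ℝ) < q := by
    have : 0 < q := by omega
    exact_mod_cast this
  have hq1R : (1 : ℝ) ≤ q := by exact_mod_cast hq1
  have hP0 : P ≠ 0 := by
    intro h0
    rw [h0, Polynomial.natDegree_zero] at hPd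
    omega
  have hξU : ξ ∈ U := by
    rw [hU, Finset.mem_biUnion]
    refine ⟨fun i : Fin (d + 1) => P.coeff i, mem_box fun i => hPH i, ?_⟩
    rw [polZ_coeff d P hPd, Multiset.mem_toFinset, Polynomial.mem_roots', Polynomial.IsRoot,
        Polynomial.eval_map]
    refine ⟨?_, hξ⟩
    rw [Polynomial.map_ne_zero_iff (RingHom.injective_int (Int.castRingHom ℝ))]
    exact hP0
  have hqN : q ∈ Icc 1 N := by
    rw [mem_Icc]
    exact ⟨hq1, Nat.le_floor hqκ⟩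
  have hgpos : 0 < g (ξ, q) := by
    simp only [hg]
    apply div_pos _ hq0
    rw [abs_pos]
    intro h0
    have h1 : ξ = ((round ((q : ℝ) * ξ) : ℤ) : ℝ) / ((q : ℤ) : ℝ) := by
      push_cast
      rw [eq_div_iff hq0.ne']
      linarith
    have h2 := no_rat_root d hd P hPd hPirr (round ((q : ℝ) * ξ)) (q : ℤ)
    rw [← h1] at h2
    exact h2 hξ
  have h1 : c0 ≤ g (ξ, q) := by
    apply F.min'_le
    rw [hF, mem_insert, mem_filter, mem_image]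
    right
    exact ⟨⟨(ξ, q), mem_product.mpr ⟨hξU, hqN⟩, rfl⟩, hgpos⟩
  have h2 : g (ξ, q) ≤ |ξ - (p : ℝ) / q| := by
    simp only [hg]
    rw [div_le_iff₀ hq0]
    have h3 : |ξ - (p : ℝ) / q| * q = |(q : ℝ) * ξ - p| := by
      rw [← abs_of_pos hq0, ← abs_mul, abs_of_pos hq0]
      congr 1
      field_simp
    rw [h3]
    exact round_le _ _
  have h3 : c0 / (2 * (ψ 0 + 1)) * (ψ q / q) < c0 := by
    have h4 : ψ q / q ≤ ψ 0 := by
      have h5 : ψ q ≤ ψ 0 := hψa (Nat.zero_le q)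
      exact (div_le_self (hψ0 q) hq1R).trans h5
    calc c0 / (2 * (ψ 0 + 1)) * (ψ q / q) ≤ c0 / (2 * (ψ 0 + 1)) * ψ 0 :=
          mul_le_mul_of_nonneg_left h4 (by positivity)
      _ = c0 * (ψ 0 / (2 * (ψ 0 + 1))) := by ring
      _ < c0 * 1 := by
          apply mul_lt_mul_of_pos_left _ hc0pos
          rw [div_lt_one (by positivity)]
          linarith
      _ = c0 := mul_one _
  linarith

/-- for finitely many heights a small constant leaves no exceptional number -/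
theorem few_heights (d : ℕ) (hd : 2 ≤ d) (κ : ℝ) (ψ : ℕ → ℝ) (hψ0 : ∀ q, 0 ≤ ψ q)
    (hψa : Antitone ψ) (H0 : ℕ) :
    ∃ c : ℝ, 0 < c ∧ ∀ H : ℕ, H < H0 → ∀ ξ : ℝ, AlgN d H ξ →
      ∀ (p : ℤ) (q : ℕ), 1 ≤ q → (q : ℝ) ≤ (H : ℝ) ^ κ →
        c * (ψ q / q) < |ξ - (p : ℝ) / q| := by
  induction H0 with
  | zero => exact ⟨1, one_pos, fun H hH => absurd hH (Nat.not_lt_zero H)⟩
  | succ H0 ih =>
    obtain ⟨c1, hc1, h1⟩ := ih
    obtain ⟨c2, hc2, h2⟩ := one_height d hd κ ψ hψ0 hψa H0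
    refine ⟨min c1 c2, lt_min hc1 hc2, fun H hH ξ hξ p q hq hqκ => ?_⟩
    have hpos : 0 ≤ ψ q / q := div_nonneg (hψ0 q) (Nat.cast_nonneg q)
    rcases Nat.lt_succ_iff_lt_or_eq.mp hH with h | h
    · exact lt_of_le_of_lt (mul_le_mul_of_nonneg_right (min_le_left _ _) hpos)
        (h1 H h ξ hξ p q hq hqκ)
    · rw [h] at hξ hqκ
      exact lt_of_le_of_lt (mul_le_mul_of_nonneg_right (min_le_right _ _) hpos)
        (h2 ξ hξ p q hq hqκ)

open Polynomial in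
/-- from polynomials to their roots, for a general condition on the root -/
theorem roots_count (d : ℕ) (hd : 1 ≤ d) (H : ℕ) (Φ : ℝ → Prop) (B : ℝ)
    (hB : ∀ BB : Finset (Fin (d + 1) → ℤ), (∀ a ∈ BB, (∀ i, |a i| ≤ (H : ℤ)) ∧
      a (Fin.last d) ≠ 0 ∧ ∃ ξ : ℝ, ev a ξ = 0 ∧ Φ ξ) → (BB.card : ℝ) ≤ B) :
    {ξ : ℝ | AlgN d H ξ ∧ Φ ξ}.Finite ∧ ({ξ : ℝ | AlgN d H ξ ∧ Φ ξ}.ncard : ℝ) ≤ B * d := by
  classical
  set S : Set ℝ := {ξ : ℝ | AlgN d H ξ ∧ Φ ξ} with hS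
  set BB : Finset (Fin (d + 1) → ℤ) :=
    (Pool.Agent.Results.MP_c307ca_nt.AlmostAllToHeight.box (d + 1) (H : ℤ)).filter (fun a =>
    ∃ P : Polynomial ℤ, (fun i : Fin (d + 1) => P.coeff i) = a ∧ P.natDegree = d ∧
      (∀ i, |P.coeff i| ≤ (H : ℤ)) ∧ Irreducible (P.map (Int.castRingHom ℚ)) ∧
      ∃ ξ : ℝ, Polynomial.aeval ξ P = 0 ∧ Φ ξ) with hBB
  have hcount := hB BB (by
    intro a ha
    rw [hBB, Finset.mem_filter] at ha
    obtain ⟨_, P, hPa, hPd, hPH, hPirr, ξ, hξ, hΦ⟩ := ha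
    subst hPa
    refine ⟨fun i => hPH i, ?_, ξ, ?_, hΦ⟩
    · have h1 : P ≠ 0 := by
        intro h0
        rw [h0, Polynomial.natDegree_zero] at hPd
        omega
      have h2 : P.coeff d ≠ 0 := by
        rw [← hPd]
        exact Polynomial.leadingCoeff_ne_zero.mpr h1
      simpa using h2
    · rw [ev_eq_aeval d P hPd]
      exact hξ)
  set U : Finset ℝ := BB.biUnion (fun a => ((polZ a).map (Int.castRingHom ℝ)).roots.toFinset)
    with hU
  have hSU : S ⊆ (U : Set ℝ) := by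
    rintro ξ ⟨⟨P, hPd, hPH, hPirr, hξ⟩, hpq⟩
    rw [hU, Finset.mem_coe, Finset.mem_biUnion]
    refine ⟨fun i : Fin (d + 1) => P.coeff i, ?_, ?_⟩
    · rw [hBB, Finset.mem_filter]
      exact ⟨mem_box fun i => hPH i, P, rfl, hPd, hPH, hPirr, ξ, hξ, hpq⟩
    · rw [polZ_coeff d P hPd, Multiset.mem_toFinset, Polynomial.mem_roots',
        Polynomial.IsRoot, Polynomial.eval_map]
      refine ⟨?_, hξ⟩
      rw [Polynomial.map_ne_zero_iff (RingHom.injective_int (Int.castRingHom ℝ))]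
      intro h0
      rw [h0, Polynomial.natDegree_zero] at hPd
      omega
  have hUcard : U.card ≤ BB.card * d := by
    refine Finset.card_biUnion_le_card_mul _ _ _ fun a ha => ?_
    rw [hBB, Finset.mem_filter] at ha
    obtain ⟨_, P, hPa, hPd, _⟩ := ha
    have hpa : polZ a = P := by
      rw [← hPa]
      exact polZ_coeff d P hPd
    rw [hpa]
    refine (Multiset.toFinset_card_le _).trans ((Polynomial.card_roots' _).trans ?_)
    exact Polynomial.natDegree_map_le.trans hPd.le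
  refine ⟨U.finite_toSet.subset hSU, ?_⟩
  have h1 : S.ncard ≤ U.card := by
    rw [← Set.ncard_coe_finset]
    exact Set.ncard_le_ncard hSU U.finite_toSet
  have h2 : (S.ncard : ℝ) ≤ (BB.card : ℝ) * d := by
    exact_mod_cast h1.trans hUcard
  exact h2.trans (mul_le_mul_of_nonneg_right hcount (Nat.cast_nonneg d))

/-- **Khintchine's inequality for almost all algebraic numbers of degree `d`.** -/
theorem khintchine (d : ℕ) (hd : 2 ≤ d) (κ : ℝ) (hκ : κ < ((d : ℝ) + 1) / 2) (ψ : ℕ → ℝ)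
    (hψ0 : ∀ q, 0 ≤ ψ q) (hψa : Antitone ψ) (hψs : Summable ψ) (η : ℝ) (hη : 0 < η) :
    ∃ c : ℝ, 0 < c ∧ ∀ H : ℕ, 1 ≤ H →
      {ξ : ℝ | AlgN d H ξ ∧ ∃ (p : ℤ) (q : ℕ), 1 ≤ q ∧ (q : ℝ) ≤ (H : ℝ) ^ κ ∧
        |ξ - (p : ℝ) / q| ≤ c * (ψ q / q)}.Finite ∧
      ({ξ : ℝ | AlgN d H ξ ∧ ∃ (p : ℤ) (q : ℕ), 1 ≤ q ∧ (q : ℝ) ≤ (H : ℝ) ^ κ ∧
        |ξ - (p : ℝ) / q| ≤ c * (ψ q / q)}.ncard : ℝ) ≤ η * (H : ℝ) ^ (d + 1) := by
  have hd0 : (0 : ℝ) < d := by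
    have : 0 < d := by omega
    exact_mod_cast this
  set T : ℕ := ⌈4 * (d : ℝ) * 3 ^ d / η⌉₊ + 2 + d with hTdef
  have hT : 2 ≤ T := by omega
  have hdT : d ≤ T := by omega
  have hT1 : 4 * (d : ℝ) * 3 ^ d / η ≤ (T : ℝ) - 1 := by
    have h1 := Nat.le_ceil (4 * (d : ℝ) * 3 ^ d / η)
    rw [hTdef]
    push_cast
    linarith
  have hT2 : (2 : ℝ) ≤ T := by exact_mod_cast hT
  have hT3 : (0 : ℝ) < (T : ℝ) - 1 := by linarith
  have hTη : 2 * 3 ^ d / ((T : ℝ) - 1) ≤ η / (2 * d) := by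
    rw [div_le_iff₀ hη] at hT1
    rw [div_le_div_iff₀ hT3 (by positivity)]
    nlinarith
  obtain ⟨c1, hc1, hev⟩ := approx_count d T (by omega) hT hdT κ hκ ψ hψ0 hψa hψs (η / (2 * d))
    (by positivity)
  obtain ⟨H0, hH0⟩ := eventually_atTop.mp hev
  obtain ⟨c2, hc2, hfew⟩ := few_heights d hd κ ψ hψ0 hψa H0
  refine ⟨min c1 c2, lt_min hc1 hc2, fun H hH1 => ?_⟩
  have hHp : 0 ≤ (H : ℝ) ^ (d + 1) := by positivity
  set Φ : ℝ → Prop := fun ξ => ∃ (p : ℤ) (q : ℕ), 1 ≤ q ∧ (q : ℝ) ≤ (H : ℝ) ^ κ ∧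
        |ξ - (p : ℝ) / q| ≤ min c1 c2 * (ψ q / q) with hΦ
  have hpos : ∀ q : ℕ, 0 ≤ ψ q / q := fun q => div_nonneg (hψ0 q) (Nat.cast_nonneg q)
  rcases lt_or_ge H H0 with hHH | hHH
  · have hempty : {ξ : ℝ | AlgN d H ξ ∧ Φ ξ} = ∅ := by
      rw [Set.eq_empty_iff_forall_notMem]
      rintro ξ ⟨hP, p, q, hq1, hqκ, hle⟩
      have h1 := hfew H hHH ξ hP p q hq1 hqκ
      have h2 : min c1 c2 * (ψ q / q) ≤ c2 * (ψ q / q) :=
        mul_le_mul_of_nonneg_right (min_le_right _ _) (hpos q)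
      linarith
    rw [hempty]
    refine ⟨Set.finite_empty, ?_⟩
    rw [Set.ncard_empty, Nat.cast_zero]
    positivity
  · have h1 := roots_count d (by omega) H Φ
      ((H : ℝ) ^ (d + 1) * (2 * 3 ^ d / ((T : ℝ) - 1) + η / (2 * d))) (by
      intro BB hBB
      apply hH0 H hHH BB
      intro a ha
      obtain ⟨h2, h3, ξ, h4, p, q, h5, h6, h7⟩ := hBB a ha
      refine ⟨h2, h3, ξ, h4, p, q, h5, h6, h7.trans ?_⟩
      exact mul_le_mul_of_nonneg_right (min_le_left _ _) (hpos q))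
    refine ⟨h1.1, h1.2.trans ?_⟩
    calc (H : ℝ) ^ (d + 1) * (2 * 3 ^ d / ((T : ℝ) - 1) + η / (2 * d)) * d
        ≤ (H : ℝ) ^ (d + 1) * (η / (2 * d) + η / (2 * d)) * d := by
          apply mul_le_mul_of_nonneg_right _ hd0.le
          apply mul_le_mul_of_nonneg_left _ hHp
          linarith
      _ = η * (H : ℝ) ^ (d + 1) := by
          field_simp
          ring

end Pool.Agent.V8H9.LC
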