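import Pool.Agent.Results.MP_c5a493_nt.UniformBound

/-!
# The measure of the points of the rational normal curve close to rational points
-/

set_option autoImplicit false

namespace Pool.Agent.V8H9.LC

open Finset MeasureTheory Metric

attribute [local instance] Matrix.seminormedAddCommGroup in
/-- Siegel's lemma for one equation -/
theorem siegel_one (n : ℕ) (hn : 1 ≤ n) (w : Fin (n + 1) → ℤ) (W : ℝ) (hW : 1 ≤ W)
    (hw : ∀ i, |(w i : ℝ)| ≤ W) : ∃ a : Fin (n + 1) → ℤ, a ≠ 0 ∧ ∑ i, a i * w i = 0 ∧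
      ∀ i, |(a i : ℝ)| ≤ (((n : ℝ) + 1) * W) ^ ((1 : ℝ) / n) := by
  obtain ⟨t, ht0, htA, htn⟩ := Int.Matrix.exists_ne_zero_int_vec_norm_le
    (Matrix.of fun (_ : Fin 1) (j : Fin (n + 1)) => w j) (by simp; omega) (by simp)
  refine ⟨t, ht0, ?_, ?_⟩
  · have h1 := congrFun htA 0
    simp only [Matrix.mulVec, dotProduct, Matrix.of_apply, Pi.zero_apply] at h1
    rw [← h1]
    exact Finset.sum_congr rfl fun i _ => mul_comm _ _
  · intro i
    have h1 : |(t i : ℝ)| ≤ ‖t‖ := by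
      have h2 := norm_le_pi_norm t i
      rw [Int.norm_eq_abs] at h2
      exact h2
    refine (h1.trans htn).trans ?_
    have hn0 : (0 : ℝ) < n := by exact_mod_cast hn
    have e1 : ((Fintype.card (Fin 1) : ℝ) / ((Fintype.card (Fin (n + 1)) : ℝ) -
        (Fintype.card (Fin 1) : ℝ))) = 1 / n := by
      simp
    rw [e1]
    apply Real.rpow_le_rpow
    · positivity
    · have h2 : ‖(Matrix.of fun (_ : Fin 1) (j : Fin (n + 1)) => w j)‖ ≤ W := by
        rw [Matrix.norm_le_iff (by linarith)]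
        intro i j
        rw [Matrix.of_apply, Int.norm_eq_abs]
        exact hw j
      have h3 : ((Fintype.card (Fin (n + 1)) : ℕ) : ℝ) = (n : ℝ) + 1 := by simp
      rw [h3]
      exact mul_le_mul_of_nonneg_left (max_le hW h2) (by positivity)
    · positivity

/-- the set of the points `x` such that `(1, x, …, x ^ n)` is close to a rational point with
denominator between `T` and `2 T` -/
def EE (n : ℕ) (N δ H T : ℝ) : Set ℝ := {x ∈ ball (0 : ℝ) N | ∃ w : Fin (n + 1) → ℤ,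
  T ≤ (w 0 : ℝ) ∧ (w 0 : ℝ) ≤ 2 * T ∧ ∀ i : Fin (n + 1),
    H * |(w i : ℝ) - (w 0 : ℝ) * x ^ (i : ℕ)| ≤ δ}

/-- the exponent -/
noncomputable def al (n : ℕ) : ℝ := 1 / ((n : ℝ) * (n + 1) * n)

theorem al_pos {n : ℕ} (hn : 1 ≤ n) : 0 < al n := by
  unfold al
  have : (0 : ℝ) < n := by exact_mod_cast hn
  positivity

theorem near_measure (n : ℕ) (hn : 1 ≤ n) (N : ℝ) (hN : (n : ℝ) + 1 ≤ N) (δ : ℝ) (hδ : 0 < δ) :
    ∃ C : ℝ, 0 < C ∧ ∀ H T : ℝ, 1 ≤ H → 1 ≤ T →
      volume (EE n N δ H T) ≤ ENNReal.ofReal (C * (T / H ^ n) ^ al n) := by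
  have hn0 : (0 : ℝ) < n := by exact_mod_cast hn
  have hn1 : (1 : ℝ) ≤ n := by exact_mod_cast hn
  have hN0 : 1 ≤ N := by linarith
  -- constants
  set W0 : ℝ := 2 * N ^ n + δ with hW0
  have hW01 : 1 ≤ W0 := by
    have : (1 : ℝ) ≤ N ^ n := one_le_pow₀ hN0
    linarith
  set A0 : ℝ := ((n : ℝ) + 1) * W0 with hA0
  have hA01 : 1 ≤ A0 := by
    rw [hA0]
    nlinarith
  -- `η ^ (n + 1) = Y ^ (n + 1) * C3 / (H T)`, where `Y = (A0 T) ^ (1 / n)`
  set C3 : ℝ := ((n : ℝ) + 1) * δ with hC3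
  have hC30 : 0 < C3 := by positivity
  set C4 : ℝ := (A0 ^ ((1 : ℝ) / n)) * C3 ^ ((1 : ℝ) / (n + 1)) with hC4
  have hC40 : 0 < C4 := by positivity
  set k0 : ℝ := Pool.Agent.Results.MP_c5a493_nt.UniformBound.kap n *
    (4 * n * (((n : ℝ) + 1) * (2 * ((n : ℝ) + 1))) ^ ((1 : ℝ) / n)) * N with hk0
  have hkap := Pool.Agent.Results.MP_c5a493_nt.UniformBound.kap_nonneg n
  have hk00 : 0 ≤ k0 := by positivity
  refine ⟨(k0 + 2 * N) * C4 ^ ((1 : ℝ) / n), by positivity, ?_⟩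
  intro H T hH hT
  have hH0 : 0 < H := by linarith
  have hT0 : 0 < T := by linarith
  set Y : ℝ := (A0 * T) ^ ((1 : ℝ) / n) with hY
  have hAT : 1 ≤ A0 * T := by nlinarith
  have hY1 : 1 ≤ Y := Real.one_le_rpow hAT (by positivity)
  have hY0 : 0 < Y := by linarith
  set e : ℝ := Y * (C3 / (H * T)) ^ ((1 : ℝ) / (n + 1)) with he
  have he0 : 0 < e := by positivity
  have hbase : 0 < C3 / (H * T) := by positivity
  have hepow : e ^ (n + 1) = Y ^ (n + 1) * (C3 / (H * T)) := by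
    rw [he, mul_pow]
    congr 1
    rw [← Real.rpow_natCast, ← Real.rpow_mul hbase.le]
    push_cast
    rw [one_div_mul_cancel (by positivity), Real.rpow_one]
  have he_eq : e = C4 * (T / H ^ n) ^ ((1 : ℝ) / (n * (n + 1))) := by
    rw [he, hY, hC4, Real.mul_rpow (by linarith) hT0.le, Real.div_rpow hC30.le (by positivity),
      Real.mul_rpow hH0.le hT0.le, Real.div_rpow hT0.le (by positivity), ← Real.rpow_natCast H n,
      ← Real.rpow_mul hH0.le]
    have e1 : (n : ℝ) * (1 / ((n : ℝ) * (n + 1))) = 1 / (n + 1) := by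
      field_simp
    rw [e1]
    have e2 : T ^ ((1 : ℝ) / n) = T ^ ((1 : ℝ) / (n * (n + 1))) * T ^ ((1 : ℝ) / (n + 1)) := by
      rw [← Real.rpow_add hT0]
      congr 1
      field_simp
      ring
    rw [e2]
    have h1 : T ^ ((1 : ℝ) / (n + 1)) ≠ 0 := (Real.rpow_pos_of_pos hT0 _).ne'
    have h2 : H ^ ((1 : ℝ) / (n + 1)) ≠ 0 := (Real.rpow_pos_of_pos hH0 _).ne'
    field_simp
  have hfin : e ^ ((1 : ℝ) / n) = C4 ^ ((1 : ℝ) / n) * (T / H ^ n) ^ al n := by
    rw [he_eq, Real.mul_rpow hC40.le (by positivity), ← Real.rpow_mul (by positivity)]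
    congr 2
    unfold al
    field_simp
  rcases lt_or_ge 1 e with he1 | he1
  · -- trivial bound
    have h1 : (1 : ℝ) ≤ e ^ ((1 : ℝ) / n) := Real.one_le_rpow he1.le (by positivity)
    calc volume (EE n N δ H T) ≤ volume (ball (0 : ℝ) N) := measure_mono (fun x hx => hx.1)
      _ = ENNReal.ofReal (2 * N) := Real.volume_ball _ _
      _ ≤ _ := by
        apply ENNReal.ofReal_le_ofReal
        rw [mul_assoc, ← hfin]
        nlinarith
  · have hmain := Pool.Agent.Results.MP_c5a493_nt.UniformBound.main_measure (n := n) hn (N := N)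
      (T := Y) (δ := Y * (C3 / (H * T))) (η := e) hN hY1 (by positivity) he0 he1 (by
        rw [hepow, pow_succ]
        ring)
    refine (measure_mono ?_).trans (hmain.trans ?_)
    · rintro x ⟨hx, w, hw1, hw2, hw3⟩
      refine ⟨hx, ?_⟩
      have hxN : |x| ≤ N := by
        rw [mem_ball, Real.dist_eq, sub_zero] at hx
        exact hx.le
      have hw0 : (0 : ℝ) < w 0 := by linarith
      have hwi : ∀ i, |(w i : ℝ)| ≤ W0 * T := by
        intro i
        have h1 : |(w i : ℝ) - (w 0 : ℝ) * x ^ (i : ℕ)| ≤ δ := by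
          have h2 := hw3 i
          have h3 : 0 ≤ |(w i : ℝ) - (w 0 : ℝ) * x ^ (i : ℕ)| := abs_nonneg _
          exact (le_mul_of_one_le_left h3 hH).trans h2
        have h2 : |(w 0 : ℝ) * x ^ (i : ℕ)| ≤ 2 * T * N ^ n := by
          rw [abs_mul, abs_of_pos hw0, abs_pow]
          have h3 : |x| ^ (i : ℕ) ≤ N ^ n := by
            calc |x| ^ (i : ℕ) ≤ N ^ (i : ℕ) := pow_le_pow_left₀ (abs_nonneg _) hxN _
              _ ≤ N ^ n := pow_le_pow_right₀ hN0 (by have := i.2; omega)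
          exact mul_le_mul hw2 h3 (by positivity) (by positivity)
        have h3 : |(w i : ℝ)| ≤ |(w i : ℝ) - (w 0 : ℝ) * x ^ (i : ℕ)| +
            |(w 0 : ℝ) * x ^ (i : ℕ)| := by
          have := abs_add_le ((w i : ℝ) - (w 0 : ℝ) * x ^ (i : ℕ)) ((w 0 : ℝ) * x ^ (i : ℕ))
          rwa [sub_add_cancel] at this
        have h4 : δ ≤ δ * T := le_mul_of_one_le_right hδ.le hT
        calc |(w i : ℝ)| ≤ δ + 2 * T * N ^ n := by linarith
          _ ≤ δ * T + 2 * T * N ^ n := by linarith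
          _ = W0 * T := by rw [hW0]; ring
      obtain ⟨a, ha0, hsum, ha⟩ := siegel_one n hn w (W0 * T)
        (one_le_mul_of_one_le_of_one_le hW01 hT) hwi
      have ha' : ∀ i, |(a i : ℝ)| ≤ Y := by
        intro i
        have := ha i
        rwa [← mul_assoc, ← hA0, ← hY] at this
      refine ⟨a, ha0, ?_, ha'⟩
      have hsumR : ∑ i, (a i : ℝ) * (w i : ℝ) = 0 := by exact_mod_cast hsum
      have h1 : (w 0 : ℝ) * ∑ j, (a j : ℝ) * x ^ (j : ℕ) =
          -∑ j, (a j : ℝ) * ((w j : ℝ) - (w 0 : ℝ) * x ^ (j : ℕ)) := by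
        have h2 : ∑ j, (a j : ℝ) * ((w j : ℝ) - (w 0 : ℝ) * x ^ (j : ℕ)) =
            ∑ j, (a j : ℝ) * (w j : ℝ) - (w 0 : ℝ) * ∑ j, (a j : ℝ) * x ^ (j : ℕ) := by
          rw [Finset.mul_sum, ← Finset.sum_sub_distrib]
          exact Finset.sum_congr rfl fun j _ => by ring
        rw [h2, hsumR]
        ring
      have h2 : (w 0 : ℝ) * |∑ j, (a j : ℝ) * x ^ (j : ℕ)| ≤ ((n : ℝ) + 1) * (Y * (δ / H)) := by
        have h5 : (w 0 : ℝ) * |∑ j, (a j : ℝ) * x ^ (j : ℕ)| =
            |(w 0 : ℝ) * ∑ j, (a j : ℝ) * x ^ (j : ℕ)| := by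
          rw [abs_mul, abs_of_pos hw0]
        rw [h5, h1, abs_neg]
        refine (Finset.abs_sum_le_sum_abs _ _).trans ?_
        calc ∑ j, |(a j : ℝ) * ((w j : ℝ) - (w 0 : ℝ) * x ^ (j : ℕ))|
            ≤ ∑ _j : Fin (n + 1), Y * (δ / H) := by
              apply Finset.sum_le_sum
              intro j _
              rw [abs_mul]
              apply mul_le_mul (ha' j) _ (abs_nonneg _) hY0.le
              rw [le_div_iff₀ hH0]
              have := hw3 j
              linarith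
          _ = ((n : ℝ) + 1) * (Y * (δ / H)) := by
              rw [Finset.sum_const, card_univ, Fintype.card_fin, nsmul_eq_mul]
              push_cast
              ring
      have h3 : T * |∑ j, (a j : ℝ) * x ^ (j : ℕ)| ≤ ((n : ℝ) + 1) * (Y * (δ / H)) :=
        (mul_le_mul_of_nonneg_right hw1 (abs_nonneg _)).trans h2
      have h4 : Y * (C3 / (H * T)) = ((n : ℝ) + 1) * (Y * (δ / H)) / T := by
        rw [hC3]
        field_simp
      rw [h4, le_div_iff₀ hT0]
      linarith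
    · apply ENNReal.ofReal_le_ofReal
      have h1 : (((n : ℝ) + 1) * (2 * ((n : ℝ) + 1) * e)) ^ ((1 : ℝ) / n) =
          (((n : ℝ) + 1) * (2 * ((n : ℝ) + 1))) ^ ((1 : ℝ) / n) * e ^ ((1 : ℝ) / n) := by
        rw [← Real.mul_rpow (by positivity) he0.le]
        congr 1
        ring
      rw [h1, hfin]
      have h2 : 0 ≤ C4 ^ ((1 : ℝ) / n) * (T / H ^ n) ^ al n := by positivity
      calc _ = k0 * (C4 ^ ((1 : ℝ) / n) * (T / H ^ n) ^ al n) := by
            rw [hk0]
            ring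
        _ ≤ (k0 + 2 * N) * (C4 ^ ((1 : ℝ) / n) * (T / H ^ n) ^ al n) := by
            apply mul_le_mul_of_nonneg_right _ h2
            linarith
        _ = _ := by ring

end Pool.Agent.V8H9.LC
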