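import Pool.Agent.V8H9.LC.Meas

/-!
# Minimal integer vectors near the cone over the rational normal curve
-/

set_option autoImplicit false

namespace Pool.Agent.V8H9.LC

open Finset MeasureTheory Metric

variable {n : ℕ}

/-- `w` is close to `w 0 (1, θ, …, θ ^ n)` -/
def Near (H c θ : ℝ) (w : Fin (n + 1) → ℤ) : Prop :=
  ∀ i : Fin (n + 1), H * |(w i : ℝ) - (w 0 : ℝ) * θ ^ (i : ℕ)| ≤ c

/-- `w` has the least positive first coordinate among the close vectors -/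
def Minl (H c θ : ℝ) (w : Fin (n + 1) → ℤ) : Prop :=
  0 < w 0 ∧ Near H c θ w ∧ ∀ u : Fin (n + 1) → ℤ, u ≠ 0 → Near H c θ u → w 0 ≤ |u 0|

theorem Near.neg {H c θ : ℝ} {w : Fin (n + 1) → ℤ} (h : Near H c θ w) : Near H c θ (-w) := by
  intro i
  have h1 := h i
  have h2 : (((-w) i : ℤ) : ℝ) - (((-w) 0 : ℤ) : ℝ) * θ ^ (i : ℕ) =
      -((w i : ℝ) - (w 0 : ℝ) * θ ^ (i : ℕ)) := by
    simp only [Pi.neg_apply]
    push_cast
    ring
  rw [h2, abs_neg]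
  exact h1

theorem Near.zero_ne {H c θ : ℝ} (hH : 1 ≤ H) (hc : c < 1) {w : Fin (n + 1) → ℤ}
    (h : Near H c θ w) (hw : w ≠ 0) : w 0 ≠ 0 := by
  intro h0
  apply hw
  funext i
  have h1 := h i
  rw [h0, Int.cast_zero, zero_mul, sub_zero] at h1
  have h2 : |(w i : ℝ)| < 1 := by
    have h3 : |(w i : ℝ)| ≤ H * |(w i : ℝ)| := le_mul_of_one_le_left (abs_nonneg _) hH
    linarith
  have h3 : |w i| < 1 := by exact_mod_cast h2
  exact Int.abs_lt_one_iff.mp h3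

theorem exists_minl {H c θ M : ℝ} (hH : 1 ≤ H) (hc : c < 1)
    (h : ∃ u : Fin (n + 1) → ℤ, u ≠ 0 ∧ Near H c θ u ∧ |(u 0 : ℝ)| ≤ M) :
    ∃ w : Fin (n + 1) → ℤ, Minl H c θ w ∧ (w 0 : ℝ) ≤ M := by
  classical
  obtain ⟨u0, hu0, hu0n, hu0M⟩ := h
  have hex : ∃ k : ℕ, ∃ u : Fin (n + 1) → ℤ, u ≠ 0 ∧ Near H c θ u ∧ (u 0).natAbs = k :=
    ⟨_, u0, hu0, hu0n, rfl⟩
  obtain ⟨u, hu, hun, huk⟩ := Nat.find_spec hex
  have hmin : ∀ u' : Fin (n + 1) → ℤ, u' ≠ 0 → Near H c θ u' → |u 0| ≤ |u' 0| := by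
    intro u' hu' hun'
    have h1 := Nat.find_min' hex ⟨u', hu', hun', rfl⟩
    rw [← huk] at h1
    rw [Int.abs_eq_natAbs, Int.abs_eq_natAbs]
    exact_mod_cast h1
  have hM : |(u 0 : ℝ)| ≤ M := by
    have h1 := hmin u0 hu0 hu0n
    have h2 : |(u 0 : ℝ)| ≤ |(u0 0 : ℝ)| := by exact_mod_cast h1
    exact h2.trans hu0M
  have hne := hun.zero_ne hH hc hu
  rcases lt_or_gt_of_ne hne with hneg | hpos
  · refine ⟨-u, ⟨by simpa using hneg, hun.neg, ?_⟩, ?_⟩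
    · intro u' hu' hun'
      have := hmin u' hu' hun'
      rw [abs_of_neg hneg] at this
      simpa using this
    · have h1 : (u 0 : ℝ) < 0 := by exact_mod_cast hneg
      rw [abs_of_neg h1] at hM
      simpa using hM
  · refine ⟨u, ⟨hpos, hun, ?_⟩, ?_⟩
    · intro u' hu' hun'
      have := hmin u' hu' hun'
      rwa [abs_of_pos hpos] at this
    · have h1 : (0 : ℝ) < u 0 := by exact_mod_cast hpos
      rwa [abs_of_pos h1] at hM

theorem pow_sub_le {R x y : ℝ} (hR : 1 ≤ R) (hx : |x| ≤ R) (hy : |y| ≤ R) (i : ℕ) :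
    |x ^ i - y ^ i| ≤ i * R ^ i * |x - y| := by
  induction i with
  | zero => simp
  | succ i ih =>
    have h1 : x ^ (i + 1) - y ^ (i + 1) = x * (x ^ i - y ^ i) + y ^ i * (x - y) := by ring
    rw [h1]
    refine (abs_add_le _ _).trans ?_
    rw [abs_mul, abs_mul, abs_pow]
    have h2 : |y| ^ i ≤ R ^ i := pow_le_pow_left₀ (abs_nonneg _) hy i
    have h3 : R ^ i ≤ R ^ (i + 1) := pow_le_pow_right₀ hR (Nat.le_succ i)
    have h4 : 0 ≤ |x - y| := abs_nonneg _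
    calc |x| * |x ^ i - y ^ i| + |y| ^ i * |x - y|
        ≤ R * (i * R ^ i * |x - y|) + R ^ (i + 1) * |x - y| :=
          add_le_add (mul_le_mul hx ih (abs_nonneg _) (by linarith))
            (mul_le_mul_of_nonneg_right (h2.trans h3) h4)
      _ = ((i + 1 : ℕ) : ℝ) * R ^ (i + 1) * |x - y| := by
          push_cast
          ring

theorem pow_sub_le' {R x y : ℝ} (hR : 1 ≤ R) (hx : |x| ≤ R) (hy : |y| ≤ R) (i : Fin (n + 1)) :
    |x ^ (i : ℕ) - y ^ (i : ℕ)| ≤ (n * R ^ n) * |x - y| := by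
  refine (pow_sub_le hR hx hy i).trans ?_
  have hi : (i : ℕ) ≤ n := Nat.lt_succ_iff.mp i.2
  have h1 : ((i : ℕ) : ℝ) ≤ n := by exact_mod_cast hi
  have h2 : R ^ (i : ℕ) ≤ R ^ n := pow_le_pow_right₀ hR hi
  have h3 : (0 : ℝ) ≤ R ^ (i : ℕ) := by positivity
  exact mul_le_mul_of_nonneg_right (mul_le_mul h1 h2 h3 (Nat.cast_nonneg n)) (abs_nonneg _)

/-- moving the point -/
theorem near_move {H c R T ρ θ θ' : ℝ} (hH : 1 ≤ H) (hR : 1 ≤ R) (hθ : |θ| ≤ R)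
    (hθ' : |θ'| ≤ R) (hρ : |θ - θ'| ≤ ρ) (hρ2 : H * (2 * T) * (n * R ^ n) * ρ ≤ c)
    {w : Fin (n + 1) → ℤ} (hw0 : 0 < w 0) (hw2 : (w 0 : ℝ) ≤ 2 * T) (h : Near H c θ w) :
    Near H (2 * c) θ' w := by
  intro i
  have h1 := h i
  have hw : (0 : ℝ) < w 0 := by exact_mod_cast hw0
  have h2 : (w i : ℝ) - (w 0 : ℝ) * θ' ^ (i : ℕ) =
      ((w i : ℝ) - (w 0 : ℝ) * θ ^ (i : ℕ)) + (w 0 : ℝ) * (θ ^ (i : ℕ) - θ' ^ (i : ℕ)) := by ring
  rw [h2]
  have h3 : |(w 0 : ℝ) * (θ ^ (i : ℕ) - θ' ^ (i : ℕ))| ≤ (2 * T) * ((n * R ^ n) * ρ) := by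
    rw [abs_mul, abs_of_pos hw]
    have h4 := pow_sub_le' hR hθ hθ' i
    have h5 : (n * R ^ n : ℝ) * |θ - θ'| ≤ (n * R ^ n) * ρ :=
      mul_le_mul_of_nonneg_left hρ (by positivity)
    exact mul_le_mul hw2 (h4.trans h5) (abs_nonneg _) (by linarith)
  have hH0 : 0 ≤ H := by linarith
  calc H * |(w i : ℝ) - (w 0 : ℝ) * θ ^ (i : ℕ) + (w 0 : ℝ) * (θ ^ (i : ℕ) - θ' ^ (i : ℕ))|
      ≤ H * (|(w i : ℝ) - (w 0 : ℝ) * θ ^ (i : ℕ)| +
          |(w 0 : ℝ) * (θ ^ (i : ℕ) - θ' ^ (i : ℕ))|) :=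
        mul_le_mul_of_nonneg_left (abs_add_le _ _) hH0
    _ ≤ H * |(w i : ℝ) - (w 0 : ℝ) * θ ^ (i : ℕ)| + H * ((2 * T) * ((n * R ^ n) * ρ)) := by
        rw [mul_add]
        exact add_le_add le_rfl (mul_le_mul_of_nonneg_left h3 hH0)
    _ ≤ 2 * c := by
        have h4 : H * ((2 * T) * ((n * R ^ n) * ρ)) = H * (2 * T) * (n * R ^ n) * ρ := by ring
        rw [h4]
        linarith

/-- boundedly many minimal vectors of the same size have close base points -/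
theorem overlap {H c R T ρ : ℝ} (hH : 1 ≤ H) (hc : 0 < c) (hR : 1 ≤ R)
    (hρ2 : H * (2 * T) * (n * R ^ n) * ρ ≤ c)
    (th : (Fin (n + 1) → ℤ) → ℝ) (A : Finset (Fin (n + 1) → ℤ))
    (hA : ∀ w ∈ A, |th w| ≤ R ∧ Minl H c (th w) w ∧ T ≤ (w 0 : ℝ) ∧ (w 0 : ℝ) < 2 * T)
    (hclose : ∀ w ∈ A, ∀ w' ∈ A, |th w - th w'| ≤ ρ) : A.card ≤ 5 ^ (n + 1) := by
  classical
  rcases A.eq_empty_or_nonempty with h0 | ⟨w1, hw1⟩
  · rw [h0, Finset.card_empty]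
    exact Nat.zero_le _
  obtain ⟨hR1, hM1, hT1, hT2⟩ := hA w1 hw1
  set θ := th w1 with hθ
  have hnear : ∀ w ∈ A, Near H (2 * c) θ w := by
    intro w hw
    obtain ⟨hRw, hMw, hTw1, hTw2⟩ := hA w hw
    exact near_move hH hR hRw hR1 (hclose w hw w1 hw1) hρ2 hMw.1 hTw2.le hMw.2.1
  set f : (Fin (n + 1) → ℤ) → Fin (n + 1) → ℤ := fun w i =>
    ⌊H * ((w i : ℝ) - (w 0 : ℝ) * θ ^ (i : ℕ)) / c⌋ with hf
  have hmaps : ∀ w ∈ A, f w ∈ Fintype.piFinset (fun _ : Fin (n + 1) => Icc (-2 : ℤ) 2) := by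
    intro w hw
    rw [Fintype.mem_piFinset]
    intro i
    have h1 := hnear w hw i
    have h2 : |H * ((w i : ℝ) - (w 0 : ℝ) * θ ^ (i : ℕ)) / c| ≤ 2 := by
      rw [abs_div, abs_mul, abs_of_pos hc, abs_of_pos (by linarith : 0 < H), div_le_iff₀ hc]
      exact h1
    rw [abs_le] at h2
    rw [mem_Icc]
    simp only [hf]
    constructor
    · rw [Int.le_floor]
      push_cast
      linarith [h2.1]
    · have h3 := Int.floor_le (H * ((w i : ℝ) - (w 0 : ℝ) * θ ^ (i : ℕ)) / c)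
      have h4 : ((⌊H * ((w i : ℝ) - (w 0 : ℝ) * θ ^ (i : ℕ)) / c⌋ : ℤ) : ℝ) ≤ (2 : ℤ) := by
        push_cast
        linarith [h2.2]
      exact_mod_cast h4
  have hinj : Set.InjOn f (A : Set (Fin (n + 1) → ℤ)) := by
    intro w hw w' hw' hff
    by_contra hne
    obtain ⟨_, _, hTw1, hTw2⟩ := hA w hw
    obtain ⟨_, _, hTw1', hTw2'⟩ := hA w' hw'
    have hu : w - w' ≠ 0 := sub_ne_zero.mpr hne
    have hun : Near H c θ (w - w') := by
      intro i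
      have h1 := congrFun hff i
      simp only [hf] at h1
      have h2 := Int.abs_sub_lt_one_of_floor_eq_floor h1
      have h3 : H * ((w i : ℝ) - (w 0 : ℝ) * θ ^ (i : ℕ)) / c -
          H * ((w' i : ℝ) - (w' 0 : ℝ) * θ ^ (i : ℕ)) / c =
          H * ((((w - w') i : ℤ) : ℝ) - (((w - w') 0 : ℤ) : ℝ) * θ ^ (i : ℕ)) / c := by
        simp only [Pi.sub_apply]
        push_cast
        ring
      rw [h3, abs_div, abs_mul, abs_of_pos hc, abs_of_pos (by linarith : 0 < H),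
        div_lt_one hc] at h2
      exact h2.le
    have h1 := hM1.2.2 _ hu hun
    have h2 : (w1 0 : ℝ) ≤ |((w - w') 0 : ℝ)| := by exact_mod_cast h1
    have h3 : |(((w - w') 0 : ℤ) : ℝ)| < T := by
      simp only [Pi.sub_apply]
      push_cast
      rw [abs_lt]
      constructor <;> linarith
    have h4 : (w1 0 : ℝ) ≤ |(((w - w') 0 : ℤ) : ℝ)| := by exact_mod_cast h1
    linarith
  have h := Finset.card_le_card_of_injOn f hmaps hinj
  refine h.trans (le_of_eq ?_)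
  rw [Fintype.card_piFinset_const]
  simp

end Pool.Agent.V8H9.LC
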