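import Pool.Agent.V8H9.LC.Count

/-!
# Integer points in slabs

The number of the integer points `F` with `|F i| ≤ H` and `|F · v| ≤ η` is at most a constant times
`H ^ n η / |v|`, unless there is an integer vector close to a short multiple of `v`.
-/

set_option autoImplicit false

namespace Pool.Agent.V8H9.LC

open Finset Pool.Agent.H393R2.Geom

section

variable {n : ℕ} (H η s : ℝ) (v : Fin (n + 1) → ℝ) (m : Fin (n + 1))

/-- the forms -/
noncomputable def LL : Matrix (Fin (n + 1)) (Fin (n + 1)) ℝ :=
  Matrix.of fun i j => if i = m then v j / (η * s) else if i = j then 1 / (H * s) else 0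

/-- the dual forms -/
noncomputable def DD : Matrix (Fin (n + 1)) (Fin (n + 1)) ℝ :=
  Matrix.of fun i j => if i = m then (if j = m then η * s / v m else 0) else
    if j = i then H * s else if j = m then -(H * s * v i / v m) else 0

theorem DD_mul_LL (hH : 0 < H) (hη : 0 < η) (hs : 0 < s) (hv : v m ≠ 0) :
    (DD H η s v m).transpose * LL H η s v m = 1 := by
  ext j k
  rw [Matrix.mul_apply]
  simp only [Matrix.transpose_apply]
  by_cases hk : k = m
  · subst hk
    rw [Finset.sum_eq_single k]
    · simp only [DD, LL, Matrix.of_apply, if_true, Matrix.one_apply]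
      by_cases hj : j = k
      · rw [if_pos hj, if_pos hj]
        field_simp
      · rw [if_neg hj, if_neg hj, zero_mul]
    · intro i _ hi
      simp only [LL, Matrix.of_apply, if_neg hi, mul_zero]
    · intro h
      exact absurd (mem_univ _) h
  · have hmk : m ≠ k := fun h => hk h.symm
    rw [Fintype.sum_eq_add m k hmk]
    · simp only [DD, LL, Matrix.of_apply, if_true, Matrix.one_apply, if_neg hk]
      by_cases hj : j = m
      · subst hj
        rw [if_pos rfl, if_neg hmk, if_pos rfl, if_neg hmk]
        field_simp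
        ring
      · rw [if_neg hj, zero_mul, zero_add]
        by_cases hjk : j = k
        · rw [if_pos hjk, if_pos hjk]
          field_simp
        · rw [if_neg hjk, if_neg hj, if_neg hjk, zero_mul]
    · intro i hi
      simp only [LL, Matrix.of_apply, if_neg hi.1, if_neg hi.2, mul_zero]

theorem det_LL : (LL H η s v m).det = (1 / (H * s)) ^ n * (v m / (η * s)) := by
  set A : Matrix (Fin (n + 1)) (Fin (n + 1)) ℝ := Matrix.diagonal (fun _ => 1 / (H * s)) with hA
  set b : Fin (n + 1) → ℝ := fun j => v j / (η * s) with hb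
  have h1 : LL H η s v m = A.updateRow m b := by
    ext i j
    by_cases hi : i = m
    · subst hi
      simp [LL, hb]
    · rw [Matrix.updateRow_ne hi]
      simp only [LL, Matrix.of_apply, if_neg hi, hA, Matrix.diagonal_apply]
  by_cases hHs : 1 / (H * s) = 0
  · rcases Nat.eq_zero_or_pos n with hn | hn
    · subst hn
      have hm : m = 0 := by
        ext
        have := m.2
        simp only [Fin.val_zero]
        omega
      subst hm
      rw [h1, Matrix.det_fin_one, Matrix.updateRow_self, pow_zero, one_mul]
    · rw [hHs, zero_pow (by omega), zero_mul, h1]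
      have : ∃ i : Fin (n + 1), i ≠ m := by
        by_cases h0 : (0 : Fin (n + 1)) = m
        · exact ⟨Fin.last n, by rw [← h0]; intro h; rw [Fin.ext_iff] at h; simp at h; omega⟩
        · exact ⟨0, h0⟩
      obtain ⟨i, hi⟩ := this
      apply Matrix.det_eq_zero_of_row_eq_zero i
      intro j
      rw [Matrix.updateRow_ne hi, hA, hHs]
      simp
  · have h2 := congrFun (Matrix.mulVec_cramer A.transpose b) m
    rw [Matrix.det_transpose] at h2
    have h3 : A.transpose = A := Matrix.diagonal_transpose _
    rw [h3, hA, Matrix.mulVec_diagonal, Matrix.det_diagonal, ← hA, Finset.prod_const, card_univ,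
      Fintype.card_fin, Pi.smul_apply, smul_eq_mul] at h2
    have h4 : A.cramer b m = (LL H η s v m).det := by
      rw [h1, ← Matrix.cramer_transpose_apply, h3]
    rw [h4, pow_succ] at h2
    apply mul_left_cancel₀ hHs
    rw [h2]
    simp only [hb]
    ring

theorem app_LL (F : Fin (n + 1) → ℤ) (i : Fin (n + 1)) :
    app (LL H η s v m) F i = if i = m then (∑ j, (F j : ℝ) * v j) / (η * s) else
      (F i : ℝ) / (H * s) := by
  rw [app_apply]
  simp only [Matrix.mulVec, dotProduct, LL, Matrix.of_apply]
  by_cases hi : i = m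
  · simp only [if_pos hi]
    rw [Finset.sum_div]
    apply Finset.sum_congr rfl
    intro j _
    ring
  · simp only [if_neg hi]
    rw [Finset.sum_eq_single i]
    · rw [if_pos rfl]
      ring
    · intro j _ hj
      rw [if_neg (fun h => hj h.symm), zero_mul]
    · intro h
      exact absurd (mem_univ _) h

theorem app_DD (u : Fin (n + 1) → ℤ) (i : Fin (n + 1)) :
    app (DD H η s v m) u i = if i = m then (u m : ℝ) / v m * (η * s) else
      (H * s) * ((u i : ℝ) - (u m : ℝ) / v m * v i) := by
  rw [app_apply]
  simp only [Matrix.mulVec, dotProduct, DD, Matrix.of_apply]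
  by_cases hi : i = m
  · simp only [if_pos hi]
    rw [Finset.sum_eq_single m]
    · rw [if_pos rfl]
      ring
    · intro j _ hj
      rw [if_neg hj, zero_mul]
    · intro h
      exact absurd (mem_univ _) h
  · simp only [if_neg hi]
    rw [Fintype.sum_eq_add i m hi]
    · rw [if_pos rfl, if_neg (fun h => hi h.symm), if_pos rfl]
      ring
    · intro j hj
      rw [if_neg hj.1, if_neg hj.2, zero_mul]

end

/-- the number of integer points in a slab -/
theorem slab_count (n : ℕ) (c : ℝ) (hc : 0 < c) : ∃ C : ℝ, 0 < C ∧ ∀ H η : ℝ, 0 < H → 0 < η →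
    ∀ (v : Fin (n + 1) → ℝ) (m : Fin (n + 1)), v m ≠ 0 →
      (∀ u : Fin (n + 1) → ℤ, u ≠ 0 → |(u m : ℝ) / v m| * η ≤ c →
        (∀ i, H * |(u i : ℝ) - (u m : ℝ) / v m * v i| ≤ c) → False) →
      ∀ S : Finset (Fin (n + 1) → ℤ), (∀ F ∈ S, (∀ i, |(F i : ℝ)| ≤ H) ∧
        |∑ j, (F j : ℝ) * v j| ≤ η) → (S.card : ℝ) ≤ C * (H ^ n * η / |v m|) := by
  have hN : 0 < n + 1 := Nat.succ_pos n
  have hC1 := C1_pos hN
  refine ⟨(C1 (n + 1) * (2 + 1 / c)) ^ (n + 1) * (n + 1).factorial, by positivity, ?_⟩
  intro H η hH hη v m hv hdual S hS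
  have hvm : 0 < |v m| := abs_pos.mpr hv
  set s : ℝ := (|v m| / (H ^ n * η)) ^ ((1 : ℝ) / ((n + 1 : ℕ) : ℝ)) with hs
  have hbase : 0 < |v m| / (H ^ n * η) := by positivity
  have hs0 : 0 < s := Real.rpow_pos_of_pos hbase _
  have hsn : s ^ (n + 1) = |v m| / (H ^ n * η) := by
    rw [hs, ← Real.rpow_natCast, ← Real.rpow_mul hbase.le]
    rw [one_div_mul_cancel (by positivity), Real.rpow_one]
  have hdet : |(LL H η s v m).det| = 1 := by
    rw [det_LL, abs_mul, abs_div, abs_of_pos (by positivity : (0 : ℝ) < (1 / (H * s)) ^ n),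
      abs_of_pos (by positivity : (0 : ℝ) < η * s)]
    have h1 : (1 / (H * s)) ^ n * (|v m| / (η * s)) = |v m| / (H ^ n * η) / s ^ (n + 1) := by
      rw [pow_succ, one_div, inv_pow, mul_pow]
      field_simp
    rw [h1, hsn]
    exact div_self hbase.ne'
  have hinv := DD_mul_LL H η s v m hH hη hs0 hv
  have h := count_general hN (LL H η s v m) (DD H η s v m) hdet hinv (1 / s) (s * c)
    (by positivity) (by positivity) (by
      intro u hu
      by_contra hcon
      push Not at hcon
      refine hdual u hu ?_ ?_
      · have h1 := hcon m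
        rw [app_DD, if_pos rfl, abs_mul, abs_of_pos (by positivity : 0 < η * s)] at h1
        have h2 : |(u m : ℝ) / v m| * η * s ≤ c * s := by linarith
        exact le_of_mul_le_mul_right h2 hs0
      · intro i
        by_cases hi : i = m
        · subst hi
          rw [div_mul_cancel₀ _ hv, sub_self, abs_zero, mul_zero]
          exact hc.le
        · have h1 := hcon i
          rw [app_DD, if_neg hi, abs_mul, abs_of_pos (by positivity : 0 < H * s)] at h1
          have h2 : H * |(u i : ℝ) - (u m : ℝ) / v m * v i| * s ≤ c * s := by linarith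
          exact le_of_mul_le_mul_right h2 hs0) S (by
      intro F hF
      obtain ⟨hF1, hF2⟩ := hS F hF
      rw [pi_norm_le_iff_of_nonneg (by positivity)]
      intro i
      rw [Real.norm_eq_abs, app_LL]
      split_ifs
      · rw [abs_div, abs_of_pos (by positivity : 0 < η * s), div_le_div_iff₀ (by positivity) hs0]
        nlinarith
      · rw [abs_div, abs_of_pos (by positivity : 0 < H * s), div_le_div_iff₀ (by positivity) hs0]
        have := hF1 i
        nlinarith)
  refine h.trans (le_of_eq ?_)
  have h1 : C1 (n + 1) * (2 * (1 / s) + 1 / (s * c)) = C1 (n + 1) * (2 + 1 / c) * (1 / s) := by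
    field_simp
  have h2 : (1 / s) ^ (n + 1) = H ^ n * η / |v m| := by
    rw [one_div, inv_pow, hsn, inv_div]
  rw [h1, mul_pow, h2]
  ring

end Pool.Agent.V8H9.LC
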